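import Pool.Agent.E8helper23.MO.L2

/-!
# Capacity and quasi-open sets: basic facts
-/

set_option autoImplicit false

namespace Pool.Agent.E8helper23.MO

open MeasureTheory Filter Topology Set
open scoped ENNReal NNReal ContDiff

variable {d : ℕ}

theorem isTest_zero : IsTest (fun _ : Sp d => (0 : ℝ)) :=
  ⟨contDiff_const, by
    have : (fun _ : Sp d => (0 : ℝ)) = 0 := rfl
    rw [this]
    exact HasCompactSupport.zero⟩

theorem pd_zero (i : Fin d) : pd i (fun _ : Sp d => (0 : ℝ)) = fun _ => 0 := by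
  funext x
  unfold pd
  simp

theorem isH1_zero : IsH1 (fun _ : Sp d => (0 : ℝ)) (fun _ _ => 0) := by
  have h := (isTest_zero (d := d)).isH1
  have h2 : (fun i => pd i (fun _ : Sp d => (0 : ℝ))) = fun _ _ => (0 : ℝ) := by
    funext i
    exact pd_zero i
  rw [h2] at h
  exact h

theorem cap_mono {A B : Set (Sp d)} (h : A ⊆ B) : cap A ≤ cap B := by
  unfold cap
  refine iInf_mono fun u => iInf_mono fun g => iInf_mono fun hu => ?_
  refine iInf_mono' fun ⟨U, hU, hB, h1⟩ => ⟨⟨U, hU, h.trans hB, h1⟩, le_rfl⟩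

theorem cap_empty : cap (∅ : Set (Sp d)) = 0 := by
  refine le_antisymm ?_ bot_le
  unfold cap
  refine iInf_le_of_le _ (iInf_le_of_le _ (iInf_le_of_le isH1_zero
    (iInf_le_of_le ⟨∅, isOpen_empty, Subset.rfl, by simp⟩ ?_)))
  simp [mass, energy]

theorem volume_le_cap (A : Set (Sp d)) : volume A ≤ cap A := by
  unfold cap
  refine le_iInf fun u => le_iInf fun g => le_iInf fun hu => le_iInf fun ⟨U, hU, hA, h1⟩ => ?_
  have h2 : volume U ≤ ENNReal.ofReal (mass u) := by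
    unfold mass
    rw [ofReal_integral_eq_lintegral_ofReal (intsq hu.1) (Eventually.of_forall fun x => sq_nonneg _)]
    calc volume U = ∫⁻ _ in U, 1 := by simp
      _ ≤ ∫⁻ x in U, ENNReal.ofReal (u x ^ 2) := by
        refine lintegral_mono_ae ?_
        filter_upwards [ae_restrict_of_ae h1, ae_restrict_mem hU.measurableSet] with x hx hxU
        have h3 := hx hxU
        rw [← ENNReal.ofReal_one]
        exact ENNReal.ofReal_le_ofReal (by nlinarith)
      _ ≤ ∫⁻ x, ENNReal.ofReal (u x ^ 2) := setLIntegral_le_lintegral _ _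
  calc volume A ≤ volume U := measure_mono hA
    _ ≤ ENNReal.ofReal (mass u) := h2
    _ ≤ ENNReal.ofReal (mass u + energy g) :=
      ENNReal.ofReal_le_ofReal (by linarith [energy_nonneg g])

theorem volume_zero_of_cap {A : Set (Sp d)} (h : cap A = 0) : volume A = 0 :=
  le_antisymm ((volume_le_cap A).trans h.le) bot_le

theorem IsOpen.quasiOpen {U : Set (Sp d)} (hU : IsOpen U) : QuasiOpen U := fun ε hε =>
  ⟨U, hU, Subset.rfl, by rw [diff_self, cap_empty]; exact hε⟩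

theorem QuasiOpen.inter_open {Ω U : Set (Sp d)} (h : QuasiOpen Ω) (hU : IsOpen U) :
    QuasiOpen (Ω ∩ U) := by
  intro ε hε
  obtain ⟨V, hV, h1, h2⟩ := h ε hε
  refine ⟨V ∩ U, hV.inter hU, inter_subset_inter_left _ h1, (cap_mono ?_).trans_lt h2⟩
  rintro x ⟨⟨hx1, hx2⟩, hx3⟩
  exact ⟨hx1, fun hx4 => hx3 ⟨hx4, hx2⟩⟩

theorem QuasiOpen.union_open {Ω U : Set (Sp d)} (h : QuasiOpen Ω) (hU : IsOpen U) :
    QuasiOpen (Ω ∪ U) := by
  intro ε hε
  obtain ⟨V, hV, h1, h2⟩ := h ε hε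
  refine ⟨V ∪ U, hV.union hU, union_subset_union_left _ h1, (cap_mono ?_).trans_lt h2⟩
  rintro x ⟨hx1, hx3⟩
  rcases hx1 with hx1 | hx1
  · exact ⟨hx1, fun hx4 => hx3 (Or.inl hx4)⟩
  · exact absurd (Or.inr hx1) hx3

theorem QuasiOpen.null {Ω : Set (Sp d)} (h : QuasiOpen Ω) : NullMeasurableSet Ω volume := by
  have h1 : ∀ n : ℕ, ∃ U, IsOpen U ∧ Ω ⊆ U ∧ cap (U \ Ω) < (n : ℝ≥0∞)⁻¹ := fun n =>
    h _ (by simp)
  choose U hU hΩ hc using h1
  have h2 : volume ((⋂ n, U n) \ Ω) = 0 := by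
    refine le_antisymm ?_ bot_le
    refine ge_of_tendsto' ENNReal.tendsto_inv_nat_nhds_zero fun n => ?_
    calc volume ((⋂ n, U n) \ Ω) ≤ volume (U n \ Ω) :=
          measure_mono (diff_subset_diff_left (iInter_subset _ n))
      _ ≤ cap (U n \ Ω) := volume_le_cap _
      _ ≤ _ := (hc n).le
  have h3 : Ω =ᵐ[volume] (⋂ n, U n) := by
    refine (HasSubset.Subset.eventuallyLE (subset_iInter hΩ)).antisymm ?_
    rw [ae_le_set]
    exact h2
  exact NullMeasurableSet.congr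
    (MeasurableSet.iInter fun n => (hU n).measurableSet).nullMeasurableSet h3.symm

theorem IsH10.ae_zero {Ω : Set (Sp d)} {u : Sp d → ℝ} {g : Fin d → Sp d → ℝ} (h : IsH10 Ω u g) :
    ∀ᵐ x, x ∉ Ω → u x = 0 := by
  have h1 := volume_zero_of_cap h.2.2
  rw [measure_eq_zero_iff_ae_notMem] at h1
  filter_upwards [h1] with x hx hxΩ
  by_contra hne
  exact hx ⟨hxΩ, hne⟩

theorem IsH10.mono {Ω Ω' : Set (Sp d)} (hs : Ω ⊆ Ω') {u : Sp d → ℝ} {g : Fin d → Sp d → ℝ}
    (h : IsH10 Ω u g) : IsH10 Ω' u g := by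
  refine ⟨h.1, h.2.1, ?_⟩
  refine le_antisymm ((cap_mono ?_).trans h.2.2.le) bot_le
  rintro x ⟨h1, h2⟩
  exact ⟨fun h3 => h1 (hs h3), h2⟩

theorem lambda1_mono {Ω Ω' : Set (Sp d)} (hs : Ω ⊆ Ω') : lambda1 Ω' ≤ lambda1 Ω := by
  unfold lambda1
  refine le_iInf fun u => le_iInf fun g => le_iInf fun hu => le_iInf fun hm => ?_
  exact iInf_le_of_le u (iInf_le_of_le g (iInf_le_of_le (hu.mono hs) (iInf_le_of_le hm le_rfl)))

theorem lambda1_le {Ω : Set (Sp d)} {u : Sp d → ℝ} {g : Fin d → Sp d → ℝ} (h : IsH10 Ω u g)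
    (hm : mass u ≠ 0) : lambda1 Ω ≤ ENNReal.ofReal (energy g / mass u) :=
  iInf_le_of_le u (iInf_le_of_le g (iInf_le_of_le h (iInf_le_of_le hm le_rfl)))

theorem le_lambda1 {Ω : Set (Sp d)} {c : ℝ≥0∞} (h : ∀ u g, IsH10 Ω u g → mass u ≠ 0 →
    c ≤ ENNReal.ofReal (energy g / mass u)) : c ≤ lambda1 Ω :=
  le_iInf fun u => le_iInf fun g => le_iInf fun hu => le_iInf fun hm => h u g hu hm

/-- continuous functions are quasi-continuous -/
theorem quasiCont_of_cont {u : Sp d → ℝ} (h : Continuous u) : QuasiContinuous u := fun ε hε =>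
  ⟨∅, isOpen_empty, by rw [cap_empty]; exact hε, h.continuousOn⟩

theorem QuasiContinuous.mul_cont {u χ : Sp d → ℝ} (h : QuasiContinuous u) (hχ : Continuous χ) :
    QuasiContinuous (fun x => χ x * u x) := by
  intro ε hε
  obtain ⟨G, hG, h1, h2⟩ := h ε hε
  exact ⟨G, hG, h1, hχ.continuousOn.mul h2⟩

/-- test functions which vanish outside `Ω` belong to `H¹₀(Ω)` -/
theorem IsTest.isH10 {Ω : Set (Sp d)} {φ : Sp d → ℝ} (h : IsTest φ) (h0 : ∀ x, φ x ≠ 0 → x ∈ Ω) :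
    IsH10 Ω φ (fun i => pd i φ) := by
  refine ⟨h.isH1, quasiCont_of_cont h.1.continuous, ?_⟩
  have : {x | x ∉ Ω ∧ φ x ≠ 0} = ∅ := by
    ext x
    simp only [mem_setOf_eq, mem_empty_iff_false, iff_false, not_and, not_not]
    intro h1
    by_contra h2
    exact h1 (h0 x h2)
  rw [this, cap_empty]

end Pool.Agent.E8helper23.MO
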