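import Mathlib

/-!
# Sobolev functions, capacity, quasi-open sets and the first Dirichlet eigenvalue: definitions
-/

set_option autoImplicit false

namespace Pool.Agent.E8helper23.MO

open MeasureTheory Filter Topology Set
open scoped ENNReal NNReal ContDiff

/-- `ℝ^d`, with Lebesgue measure `volume`. -/
abbrev Sp (d : ℕ) : Type := Fin d → ℝ

variable {d : ℕ}

/-- The `i`-th partial derivative. -/
noncomputable def pd (i : Fin d) (φ : Sp d → ℝ) (x : Sp d) : ℝ := fderiv ℝ φ x (Pi.single i 1)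

/-- Test functions: smooth functions with compact support. -/
def IsTest (φ : Sp d → ℝ) : Prop := ContDiff ℝ ∞ φ ∧ HasCompactSupport φ

/-- `u` belongs to `H¹(ℝ^d)`, with gradient `g`: both are square integrable and limits, in
`L²(ℝ^d)`, of test functions and of their gradients. -/
def IsH1 (u : Sp d → ℝ) (g : Fin d → Sp d → ℝ) : Prop :=
  MemLp u 2 volume ∧ (∀ i, MemLp (g i) 2 volume) ∧ ∃ φ : ℕ → Sp d → ℝ, (∀ n, IsTest (φ n)) ∧
    Tendsto (fun n => ∫ x, (φ n x - u x) ^ 2) atTop (𝓝 0) ∧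
    ∀ i, Tendsto (fun n => ∫ x, (pd i (φ n) x - g i x) ^ 2) atTop (𝓝 0)

/-- `∫ u²` -/
noncomputable def mass (u : Sp d → ℝ) : ℝ := ∫ x, u x ^ 2

/-- `∫ |g|²` -/
noncomputable def energy (g : Fin d → Sp d → ℝ) : ℝ := ∫ x, ∑ i, g i x ^ 2

/-- The capacity of `A`: the infimum of `‖u‖²` over the `u ∈ H¹(ℝ^d)` with `u ≥ 1` almost everywhere
on a neighbourhood of `A`. -/
noncomputable def cap (A : Set (Sp d)) : ℝ≥0∞ :=
  ⨅ (u : Sp d → ℝ) (g : Fin d → Sp d → ℝ) (_ : IsH1 u g)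
    (_ : ∃ U, IsOpen U ∧ A ⊆ U ∧ ∀ᵐ x, x ∈ U → 1 ≤ u x), ENNReal.ofReal (mass u + energy g)

/-- quasi-open sets -/
def QuasiOpen (Ω : Set (Sp d)) : Prop :=
  ∀ ε : ℝ≥0∞, 0 < ε → ∃ U, IsOpen U ∧ Ω ⊆ U ∧ cap (U \ Ω) < ε

/-- quasi-continuous functions -/
def QuasiContinuous (u : Sp d → ℝ) : Prop :=
  ∀ ε : ℝ≥0∞, 0 < ε → ∃ G, IsOpen G ∧ cap G < ε ∧ ContinuousOn u Gᶜ

/-- `u ∈ H¹₀(Ω)`, with gradient `g`: `u` is a quasi-continuous (representative of a) function of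
`H¹(ℝ^d)` which vanishes quasi-everywhere outside `Ω`. -/
def IsH10 (Ω : Set (Sp d)) (u : Sp d → ℝ) (g : Fin d → Sp d → ℝ) : Prop :=
  IsH1 u g ∧ QuasiContinuous u ∧ cap {x | x ∉ Ω ∧ u x ≠ 0} = 0

/-- The first Dirichlet eigenvalue of `Ω` (`∞` if `H¹₀(Ω) = 0`). -/
noncomputable def lambda1 (Ω : Set (Sp d)) : ℝ≥0∞ :=
  ⨅ (u : Sp d → ℝ) (g : Fin d → Sp d → ℝ) (_ : IsH10 Ω u g) (_ : mass u ≠ 0),
    ENNReal.ofReal (energy g / mass u)

/-- `Ω` is an optimal set for `(P_{D,m})`: among the quasi-open sets which contain `D` and have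
measure at most `m` it has the smallest first eigenvalue, and its measure is `m`. -/
def IsOptimal (D : Set (Sp d)) (m : ℝ≥0) (Ω : Set (Sp d)) : Prop :=
  QuasiOpen Ω ∧ D ⊆ Ω ∧ volume Ω = m ∧
    ∀ Ω', QuasiOpen Ω' → D ⊆ Ω' → volume Ω' ≤ m → lambda1 Ω ≤ lambda1 Ω'

end Pool.Agent.E8helper23.MO
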