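import Pool.Agent.E8helper23.MO.Cap

/-!
# The descent argument, in abstract form
-/

set_option autoImplicit false

namespace Pool.Agent.E8helper23.MO

open MeasureTheory Filter Topology Set
open scoped ENNReal NNReal ContDiff

variable {n : ℕ}

theorem open_lt (a : ℝ) : IsOpen {x : Sp (n + 1) | x 0 < a} :=
  isOpen_lt (continuous_apply 0) continuous_const

theorem open_gt (a : ℝ) : IsOpen {x : Sp (n + 1) | a < x 0} :=
  isOpen_lt continuous_const (continuous_apply 0)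

/-- volume of an optimal set outside `D` -/
theorem vol_diff {D Ω : Set (Sp (n + 1))} (hDo : IsOpen D) (hDf : volume D ≠ ⊤) (hD : D ⊆ Ω)
    {t : ℝ} (h : volume Ω = volume D + ENNReal.ofReal t) : volume (Ω \ D) = ENNReal.ofReal t := by
  rw [measure_sdiff hD hDo.measurableSet.nullMeasurableSet hDf, h]
  exact ENNReal.add_sub_cancel_left hDf

theorem vol_union {D Ω : Set (Sp (n + 1))} (hD : D ⊆ Ω) {t : ℝ}
    (h : volume (Ω \ D) ≤ ENNReal.ofReal t) : volume Ω ≤ volume D + ENNReal.ofReal t := by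
  have h1 : Ω = D ∪ (Ω \ D) := (union_sdiff_cancel hD).symm
  calc volume Ω = volume (D ∪ (Ω \ D)) := by rw [← h1]
    _ ≤ volume D + volume (Ω \ D) := measure_union_le _ _
    _ ≤ _ := add_le_add le_rfl h

theorem descent {D : Set (Sp (n + 1))} (hDo : IsOpen D) (hDf : volume D ≠ ⊤)
    {W s T r L L₁ L₂ δ C e₀ : ℝ} {J : ℕ}
    (hW : 0 < W) (hs : 0 < s) (hδ : 0 ≤ δ) (hC : 0 ≤ C) (he₀ : 0 ≤ e₀)
    (hsT : s ≤ T) (hCL₁ : C + δ < L₁) (hCL₂ : C + δ < L₂) (hLL₂ : L ≤ L₂)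
    (heL : e₀ + (J + 1) * δ < L) (hJ : T - J * r < s) (hr : 0 ≤ r)
    (hcut : ∀ (a : ℝ) (Ω : Set (Sp (n + 1))),
      min (lambda1 (Ω ∩ {x | x 0 < a + W})) (lambda1 (Ω ∩ {x | a < x 0})) ≤
      lambda1 Ω + ENNReal.ofReal δ)
    (hA : ∀ Ω : Set (Sp (n + 1)), volume (Ω \ D) ≤ ENNReal.ofReal T →
      ENNReal.ofReal L ≤ lambda1 (Ω ∩ {x | x 0 < W + W}))
    (hB : ∀ Ω : Set (Sp (n + 1)), volume (Ω \ D) ≤ ENNReal.ofReal s →
      ENNReal.ofReal L₂ ≤ lambda1 (Ω ∩ {x | 0 < x 0}))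
    (hCC : ∀ Ω : Set (Sp (n + 1)), volume ((Ω \ D) ∩ {x | x 0 < W}) ≤ ENNReal.ofReal r →
      ENNReal.ofReal L₁ ≤ lambda1 (Ω ∩ {x | x 0 < W}))
    (hU₁ : ∃ Ω : Set (Sp (n + 1)), QuasiOpen Ω ∧ D ⊆ Ω ∧ volume (Ω \ D) ≤ ENNReal.ofReal s ∧
      lambda1 Ω ≤ ENNReal.ofReal C)
    (hU₂ : ∃ Ω : Set (Sp (n + 1)), QuasiOpen Ω ∧ D ⊆ Ω ∧ volume (Ω \ D) ≤ ENNReal.ofReal T ∧
      lambda1 Ω ≤ ENNReal.ofReal e₀)
    {m : ℝ≥0} (hm : (m : ℝ≥0∞) = volume D + ENNReal.ofReal s) {Ω₀ : Set (Sp (n + 1))}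
    (hΩ₀ : IsOptimal D m Ω₀) :
    ∃ m' : ℝ≥0, m < m' ∧ ∀ Ω', IsOptimal D m' Ω' → volume (Ω₀ \ Ω') ≠ 0 := by
  by_contra hcon
  push Not at hcon
  -- the optimal sets at the levels `t`
  have hopt : ∀ t, s ≤ t → ∃ Ω', (QuasiOpen Ω' ∧ D ⊆ Ω' ∧
      volume Ω' = volume D + ENNReal.ofReal t ∧
      ∀ Ω, QuasiOpen Ω → D ⊆ Ω → volume Ω ≤ volume D + ENNReal.ofReal t →
        lambda1 Ω' ≤ lambda1 Ω) ∧ volume (Ω₀ \ Ω') = 0 := by
    intro t ht
    rcases ht.eq_or_lt with h | h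
    · subst h
      obtain ⟨h1, h2, h3, h4⟩ := hΩ₀
      rw [hm] at h3 h4
      exact ⟨Ω₀, ⟨h1, h2, h3, h4⟩, by simp⟩
    · set m' : ℝ≥0 := (volume D + ENNReal.ofReal t).toNNReal with hm'
      have hm'1 : (m' : ℝ≥0∞) = volume D + ENNReal.ofReal t :=
        ENNReal.coe_toNNReal (by simp [hDf])
      have hlt : m < m' := by
        rw [← ENNReal.coe_lt_coe, hm, hm'1]
        refine ENNReal.add_lt_add_left hDf ?_
        rw [ENNReal.ofReal_lt_ofReal_iff (by linarith)]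
        exact h
      obtain ⟨Ω', ⟨h1, h2, h3, h4⟩, h5⟩ := hcon m' hlt
      rw [hm'1] at h3 h4
      exact ⟨Ω', ⟨h1, h2, h3, h4⟩, h5⟩
  -- the bottom
  have hbot : ∀ (e : ℝ) (Ω : Set (Sp (n + 1))), 0 ≤ e → e + δ < L →
      volume (Ω \ D) ≤ ENNReal.ofReal s → lambda1 Ω ≤ ENNReal.ofReal e → False := by
    intro e Ω he heδ hv hl
    have h1 := (hcut 0 Ω).trans (add_le_add_left hl _)
    rw [← ENNReal.ofReal_add he hδ] at h1
    have hL0 : 0 < L := by linarith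
    have h2 : ENNReal.ofReal L ≤ lambda1 (Ω ∩ {x | x 0 < 0 + W}) := by
      refine (hA Ω (hv.trans (ENNReal.ofReal_le_ofReal hsT))).trans (lambda1_mono ?_)
      refine inter_subset_inter_right _ fun x hx => ?_
      have h3 : x 0 < 0 + W := hx
      show x 0 < W + W
      linarith
    have h3 : ENNReal.ofReal L ≤ lambda1 (Ω ∩ {x | 0 < x 0}) :=
      (ENNReal.ofReal_le_ofReal hLL₂).trans (hB Ω hv)
    have h4 := (le_min h2 h3).trans h1
    rw [ENNReal.ofReal_le_ofReal_iff (by linarith)] at h4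
    linarith
  -- the set `Ω₀`
  have hr₀ : ENNReal.ofReal r < volume ((Ω₀ \ D) ∩ {x | x 0 < W}) := by
    by_contra h
    rw [not_lt] at h
    obtain ⟨Ω, k1, k2, k3, k4⟩ := hU₁
    have h1 : volume (Ω₀ \ D) = ENNReal.ofReal s :=
      vol_diff hDo hDf hΩ₀.2.1 (hΩ₀.2.2.1.trans hm)
    have h2 : lambda1 Ω₀ ≤ ENNReal.ofReal C :=
      (hΩ₀.2.2.2 Ω k1 k2 (by rw [hm]; exact vol_union k2 k3)).trans k4
    have h3 := (hcut 0 Ω₀).trans (add_le_add_left h2 _)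
    rw [← ENNReal.ofReal_add hC hδ] at h3
    have h4 := hCC Ω₀ h
    have h5 := hB Ω₀ h1.le
    have h6 : ENNReal.ofReal (min L₁ L₂) ≤
        min (lambda1 (Ω₀ ∩ {x | x 0 < 0 + W})) (lambda1 (Ω₀ ∩ {x | 0 < x 0})) := by
      refine le_min ?_ ?_
      · rw [zero_add]
        exact (ENNReal.ofReal_le_ofReal (min_le_left _ _)).trans h4
      · exact (ENNReal.ofReal_le_ofReal (min_le_right _ _)).trans h5
    have h7 := h6.trans h3
    rw [ENNReal.ofReal_le_ofReal_iff (by linarith)] at h7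
    have := lt_min hCL₁ hCL₂
    linarith
  -- the step
  have hstep : ∀ t e : ℝ, s ≤ t → t ≤ T → 0 ≤ e → e + δ < L →
      (∃ Ω : Set (Sp (n + 1)), QuasiOpen Ω ∧ D ⊆ Ω ∧ volume (Ω \ D) ≤ ENNReal.ofReal t ∧
        lambda1 Ω ≤ ENNReal.ofReal e) →
      (∃ Ω : Set (Sp (n + 1)), QuasiOpen Ω ∧ D ⊆ Ω ∧ volume (Ω \ D) ≤ ENNReal.ofReal (t - r) ∧
        lambda1 Ω ≤ ENNReal.ofReal (e + δ)) := by
    rintro t e hst htT he heδ ⟨Ω, k1, k2, k3, k4⟩
    obtain ⟨Ωt, ⟨h1, h2, h3, h4⟩, h5⟩ := hopt t hst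
    have hvt : volume (Ωt \ D) = ENNReal.ofReal t := vol_diff hDo hDf h2 h3
    have hlt : lambda1 Ωt ≤ ENNReal.ofReal e := (h4 Ω k1 k2 (vol_union k2 k3)).trans k4
    have hrt : ENNReal.ofReal r < volume ((Ωt \ D) ∩ {x | x 0 < W}) := by
      refine hr₀.trans_le ?_
      calc volume ((Ω₀ \ D) ∩ {x | x 0 < W}) ≤
          volume (((Ωt \ D) ∩ {x | x 0 < W}) ∪ (Ω₀ \ Ωt)) := measure_mono (by
            rintro x ⟨⟨hx1, hx2⟩, hx3⟩
            by_cases hx4 : x ∈ Ωt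
            · exact Or.inl ⟨⟨hx4, hx2⟩, hx3⟩
            · exact Or.inr ⟨hx1, hx4⟩)
        _ ≤ volume ((Ωt \ D) ∩ {x | x 0 < W}) + volume (Ω₀ \ Ωt) := measure_union_le _ _
        _ = volume ((Ωt \ D) ∩ {x | x 0 < W}) := by rw [h5, add_zero]
    have hcomp : volume ((Ωt \ D) \ {x | x 0 < W}) ≤ ENNReal.ofReal (t - r) := by
      have h6 := measure_inter_add_sdiff (μ := volume) (Ωt \ D)
        (open_lt (n := n) W).measurableSet
      rw [hvt] at h6
      have h7 : ENNReal.ofReal r + volume ((Ωt \ D) \ {x | x 0 < W}) ≤ ENNReal.ofReal t := by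
        rw [← h6]
        exact add_le_add_left hrt.le _
      rw [ENNReal.ofReal_sub _ hr]
      exact ENNReal.le_sub_of_add_le_left ENNReal.ofReal_ne_top h7
    have h8 := (hcut W Ωt).trans (add_le_add_left hlt _)
    rw [← ENNReal.ofReal_add he hδ] at h8
    have h9 : lambda1 (Ωt ∩ {x | W < x 0}) ≤ ENNReal.ofReal (e + δ) := by
      rcases min_le_iff.1 h8 with h | h
      · exfalso
        have := (hA Ωt (hvt.le.trans (ENNReal.ofReal_le_ofReal htT))).trans h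
        rw [ENNReal.ofReal_le_ofReal_iff (by linarith)] at this
        linarith
      · exact h
    refine ⟨(Ωt ∩ {x | W < x 0}) ∪ D, (h1.inter_open (open_gt W)).union_open hDo,
      subset_union_right, (measure_mono ?_).trans hcomp, (lambda1_mono subset_union_left).trans h9⟩
    rintro x ⟨hx1 | hx1, hx2⟩
    · refine ⟨⟨hx1.1, hx2⟩, fun hx3 => ?_⟩
      have h10 : W < x 0 := hx1.2
      have h11 : x 0 < W := hx3
      linarith
    · exact absurd hx1 hx2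
  -- the descent
  have hmain : ∀ j : ℕ, j ≤ J →
      (∃ Ω : Set (Sp (n + 1)), QuasiOpen Ω ∧ D ⊆ Ω ∧ volume (Ω \ D) ≤ ENNReal.ofReal (T - j * r) ∧
        lambda1 Ω ≤ ENNReal.ofReal (e₀ + j * δ)) := by
    intro j
    induction j with
    | zero =>
      intro _
      simpa using hU₂
    | succ j ih =>
      intro hj
      have ih' := ih (by omega)
      have hjJ : (j : ℝ) + 1 ≤ J := by exact_mod_cast hj
      have hb : e₀ + j * δ + δ < L := by nlinarith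
      have he : 0 ≤ e₀ + j * δ := by positivity
      by_cases hts : T - j * r < s
      · exfalso
        obtain ⟨Ω, k1, k2, k3, k4⟩ := ih'
        exact hbot _ Ω he hb (k3.trans (ENNReal.ofReal_le_ofReal hts.le)) k4
      · rw [not_lt] at hts
        have h1 := hstep (T - j * r) (e₀ + j * δ) hts (by
          have : 0 ≤ (j : ℝ) * r := by positivity
          linarith) he hb ih'
        have e1 : T - j * r - r = T - ((j + 1 : ℕ) : ℝ) * r := by push_cast; ring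
        have e2 : e₀ + j * δ + δ = e₀ + ((j + 1 : ℕ) : ℝ) * δ := by push_cast; ring
        rw [e1, e2] at h1
        exact h1
  obtain ⟨Ω, k1, k2, k3, k4⟩ := hmain J le_rfl
  exact hbot _ Ω (by positivity) (by linarith) (k3.trans (ENNReal.ofReal_le_ofReal hJ.le)) k4

end Pool.Agent.E8helper23.MO
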