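import Pool.Agent.E8helper23.MO.ProdRule

/-!
# Dilations of test functions; upper bounds of the first eigenvalue
-/

set_option autoImplicit false

namespace Pool.Agent.E8helper23.MO

open MeasureTheory Filter Topology Set
open scoped ENNReal NNReal ContDiff

variable {d : ℕ}

/-- dilation -/
def dil (κ : ℝ) (w : Sp d) (φ : Sp d → ℝ) (x : Sp d) : ℝ := φ (κ • x + w)

theorem IsTest.dil {φ : Sp d → ℝ} (hφ : IsTest φ) {κ : ℝ} (hκ : 0 < κ) (w : Sp d) :
    IsTest (dil κ w φ) := by
  constructor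
  · have h1 : ContDiff ℝ ∞ (fun x : Sp d => κ • x + w) :=
      (contDiff_id.const_smul κ).add contDiff_const
    exact hφ.1.comp h1
  · exact hφ.2.comp_homeomorph ((Homeomorph.smulOfNeZero κ hκ.ne').trans (Homeomorph.addRight w))

theorem pd_dil {φ : Sp d → ℝ} (hφ : IsTest φ) (κ : ℝ) (w : Sp d) (i : Fin d) (x : Sp d) :
    pd i (dil κ w φ) x = κ * pd i φ (κ • x + w) := by
  unfold pd dil
  have h1 : HasFDerivAt (fun x : Sp d => κ • x + w) (κ • ContinuousLinearMap.id ℝ (Sp d)) x :=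
    ((hasFDerivAt_id x).const_smul κ).add_const w
  have h2 : DifferentiableAt ℝ φ (κ • x + w) := (hφ.1.differentiable (by simp)) _
  have h3 := (h2.hasFDerivAt.comp x h1).fderiv
  have h4 : (φ ∘ fun x : Sp d => κ • x + w) = fun x => φ (κ • x + w) := rfl
  rw [h4] at h3
  rw [h3]
  simp

theorem integral_dil (f : Sp d → ℝ) {κ : ℝ} (hκ : 0 < κ) (w : Sp d) :
    ∫ x, f (κ • x + w) = (κ ^ d)⁻¹ * ∫ x, f x := by
  have h1 := Measure.integral_comp_smul (volume : Measure (Sp d)) (fun y => f (y + w)) κ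
  rw [h1, integral_add_right_eq_self, Module.finrank_fin_fun, smul_eq_mul,
    abs_of_pos (by positivity)]

theorem mass_dil {φ : Sp d → ℝ} {κ : ℝ} (hκ : 0 < κ) (w : Sp d) :
    mass (dil κ w φ) = (κ ^ d)⁻¹ * mass φ :=
  integral_dil (fun x => φ x ^ 2) hκ w

theorem energy_dil {φ : Sp d → ℝ} (hφ : IsTest φ) {κ : ℝ} (hκ : 0 < κ) (w : Sp d) :
    energy (fun i => pd i (dil κ w φ)) = κ ^ 2 * ((κ ^ d)⁻¹ * energy (fun i => pd i φ)) := by
  have h1 := integral_dil (fun x => ∑ i, pd i φ x ^ 2) hκ w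
  unfold energy
  rw [← h1, ← integral_const_mul]
  refine integral_congr_ae (Eventually.of_forall fun x => ?_)
  simp only [pd_dil hφ]
  rw [Finset.mul_sum]
  exact Finset.sum_congr rfl fun i _ => by ring

theorem ratio_dil {φ : Sp d → ℝ} (hφ : IsTest φ) {κ : ℝ} (hκ : 0 < κ) (w : Sp d) :
    energy (fun i => pd i (dil κ w φ)) / mass (dil κ w φ) =
      κ ^ 2 * (energy (fun i => pd i φ) / mass φ) := by
  rw [energy_dil hφ hκ, mass_dil hκ]
  have : (κ ^ d)⁻¹ ≠ 0 := by positivity
  by_cases h : mass φ = 0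
  · rw [h]
    simp
  · field_simp

/-- Open boxes. -/
def box (lo hi : Fin d → ℝ) : Set (Sp d) := Set.pi univ fun i => Ioo (lo i) (hi i)

theorem box_open (lo hi : Fin d → ℝ) : IsOpen (box lo hi) :=
  isOpen_set_pi finite_univ fun _ _ => isOpen_Ioo

theorem mem_box {lo hi : Fin d → ℝ} {x : Sp d} : x ∈ box lo hi ↔ ∀ i, lo i < x i ∧ x i < hi i := by
  unfold box
  rw [mem_univ_pi]
  exact Iff.rfl

/-- Upper bound of the first eigenvalue of a set which contains a cube. -/
theorem cube_bound (d : ℕ) : ∃ C : ℝ, 0 < C ∧ ∀ (A : ℝ), 0 < A → ∀ (lo : Fin d → ℝ)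
    (Ω : Set (Sp d)), box lo (fun i => lo i + A) ⊆ Ω → lambda1 Ω ≤ ENNReal.ofReal (C / A ^ 2) := by
  set f : ContDiffBump (fun _ => 1 / 2 : Sp d) := ⟨1 / 4, 1 / 2, by norm_num, by norm_num⟩ with hf
  have hT : IsTest (fun x => f x) := ⟨f.contDiff, f.hasCompactSupport⟩
  have hsupp : ∀ x : Sp d, f x ≠ 0 → ∀ i, 0 < x i ∧ x i < 1 := by
    intro x hx i
    have h1 : x ∈ Function.support f := hx
    rw [f.support_eq, Metric.mem_ball, dist_pi_lt_iff f.rOut_pos] at h1
    have h2 := h1 i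
    rw [Real.dist_eq, abs_lt] at h2
    have h3 : f.rOut = 1 / 2 := rfl
    rw [h3] at h2
    constructor <;> linarith [h2.1, h2.2]
  have hm : 0 < mass (fun x => f x) := by
    refine Continuous.integral_pos_of_hasCompactSupport_nonneg_nonzero (x := fun _ => 1 / 2)
      (f.continuous.pow 2) ?_ (fun x => sq_nonneg _) ?_
    · refine f.hasCompactSupport.mono fun x hx => ?_
      rw [Function.mem_support] at hx ⊢
      intro h
      apply hx
      simp only [h]
      norm_num
    · have : f (fun _ => 1 / 2 : Sp d) = 1 := f.one_of_mem_closedBall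
        (Metric.mem_closedBall_self f.rIn_pos.le)
      simp only []
      rw [this]
      norm_num
  refine ⟨energy (fun i => pd i fun x => f x) / mass (fun x => f x) + 1, ?_, ?_⟩
  · have := div_nonneg (energy_nonneg fun i => pd i fun x => f x) hm.le
    linarith
  intro A hA lo Ω hΩ
  set w : Sp d := fun i => - (A⁻¹ * lo i) with hw
  have hAi : 0 < A⁻¹ := inv_pos.2 hA
  have hT2 : IsTest (dil A⁻¹ w fun x => f x) := hT.dil hAi w
  have h10 : IsH10 Ω (dil A⁻¹ w fun x => f x) (fun i => pd i (dil A⁻¹ w fun x => f x)) := by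
    refine hT2.isH10 fun x hx => hΩ (mem_box.2 fun i => ?_)
    have h1 := hsupp _ hx i
    simp only [hw, Pi.add_apply, Pi.smul_apply, smul_eq_mul] at h1
    have h2 : A⁻¹ * x i + -(A⁻¹ * lo i) = (x i - lo i) / A := by
      field_simp
      ring
    rw [h2, div_lt_one hA] at h1
    have h3 := (div_pos_iff_of_pos_right hA).1 h1.1
    constructor <;> linarith [h1.2]
  have hm2 : mass (dil A⁻¹ w fun x => f x) ≠ 0 := by
    rw [mass_dil hAi]
    positivity
  refine (lambda1_le h10 hm2).trans (ENNReal.ofReal_le_ofReal ?_)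
  rw [ratio_dil hT hAi]
  have h5 : 0 ≤ energy (fun i => pd i fun x => f x) / mass (fun x => f x) :=
    div_nonneg (energy_nonneg _) hm.le
  rw [inv_pow, div_eq_inv_mul _ (A ^ 2)]
  refine mul_le_mul_of_nonneg_left (by linarith) (by positivity)

end Pool.Agent.E8helper23.MO
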