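import Pool.Agent.E8helper23.MO.Grid
import Pool.Agent.E8helper23.MO.Dil

/-!
# Perforated boxes
-/

set_option autoImplicit false

namespace Pool.Agent.E8helper23.MO

open MeasureTheory Filter Topology Set
open scoped ENNReal NNReal ContDiff

variable {n : ℕ}

/-- lower corner of the `j`-th slab -/
noncomputable def lo (n : ℕ) (a p : ℝ) (j : ℕ) : Fin (n + 1) → ℝ :=
  fun i => if i = 0 then a + j * p else 0

/-- upper corner of the `j`-th slab -/
noncomputable def hi (n : ℕ) (a p h R : ℝ) (j : ℕ) : Fin (n + 1) → ℝ :=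
  fun i => if i = 0 then a + j * p + (1 - h) * p else R

/-- The perforated box: `N` slabs of width `(1 - h) p`, with period `p` in the first coordinate; the
other coordinates are in `(0, R)`. -/
noncomputable def PB (n : ℕ) (a p h R : ℝ) (N : ℕ) : Set (Sp (n + 1)) :=
  ⋃ j : Fin N, box (lo n a p j) (hi n a p h R j)

/-- the corner of the cube -/
noncomputable def corner (n : ℕ) (a : ℝ) : Fin (n + 1) → ℝ := fun i => if i = 0 then a else 0

theorem mem_PB {a p h R : ℝ} {N : ℕ} {x : Sp (n + 1)} : x ∈ PB n a p h R N ↔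
    ∃ j : Fin N, (a + j * p < x 0 ∧ x 0 < a + j * p + (1 - h) * p) ∧
      ∀ i : Fin n, 0 < x i.succ ∧ x i.succ < R := by
  unfold PB
  rw [mem_iUnion]
  refine exists_congr fun j => ?_
  rw [mem_box, Fin.forall_fin_succ]
  simp [lo, hi, Fin.succ_ne_zero]

theorem mem_cube {a R : ℝ} {x : Sp (n + 1)} : x ∈ box (corner n a) (fun i => corner n a i + R) ↔
    (a < x 0 ∧ x 0 < a + R) ∧ ∀ i : Fin n, 0 < x i.succ ∧ x i.succ < R := by
  rw [mem_box, Fin.forall_fin_succ]
  simp [corner, Fin.succ_ne_zero]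

theorem PB_sub {a p h R : ℝ} {N : ℕ} (hp : 0 < p) (hh : 0 ≤ h) (hN : N * p = R) :
    PB n a p h R N ⊆ box (corner n a) (fun i => corner n a i + R) := by
  intro x hx
  obtain ⟨j, ⟨h1, h2⟩, h3⟩ := mem_PB.1 hx
  refine mem_cube.2 ⟨⟨?_, ?_⟩, h3⟩
  · have : 0 ≤ (j : ℝ) * p := by positivity
    linarith
  · have h4 : ((j : ℕ) : ℝ) + 1 ≤ N := by exact_mod_cast j.2
    have h5 : (((j : ℕ) : ℝ) + 1) * p ≤ N * p := mul_le_mul_of_nonneg_right h4 hp.le
    nlinarith [mul_nonneg hh hp.le]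

theorem vol_prod {l u : Fin (n + 1) → ℝ} {s r : ℝ} (h0 : u 0 - l 0 = s)
    (h1 : ∀ i : Fin n, u i.succ - l i.succ = r) (hs : 0 ≤ s) (hr : 0 ≤ r) :
    ∏ i, ENNReal.ofReal (u i - l i) = ENNReal.ofReal (s * r ^ n) := by
  rw [Fin.prod_univ_succ, h0]
  simp_rw [h1]
  rw [Finset.prod_const, Finset.card_univ, Fintype.card_fin, ENNReal.ofReal_mul hs,
    ENNReal.ofReal_pow hr]

theorem cube_vol {a R : ℝ} (hR : 0 ≤ R) :
    volume (box (corner n a) (fun i => corner n a i + R)) = ENNReal.ofReal (R ^ (n + 1)) := by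
  unfold box
  rw [Real.volume_pi_Ioo, vol_prod (s := R) (r := R) (by ring) (fun i => by ring) hR hR]
  congr 1
  ring

theorem holes_vol {a p h R : ℝ} {N : ℕ} (hp : 0 < p) (hh : 0 ≤ h) (hN : N * p = R) :
    volume (box (corner n a) (fun i => corner n a i + R) \ PB n a p h R N) ≤
      ENNReal.ofReal (h * R ^ (n + 1)) := by
  have hR : 0 ≤ R := by rw [← hN]; positivity
  set S : Fin N → Set (Sp (n + 1)) := fun j =>
    Icc (fun i => if i = 0 then a + j * p + (1 - h) * p else 0)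
      (fun i => if i = 0 then a + j * p + p else R) with hS
  have hsub : box (corner n a) (fun i => corner n a i + R) \ PB n a p h R N ⊆ ⋃ j, S j := by
    rintro x ⟨hx1, hx2⟩
    obtain ⟨⟨h1, h2⟩, h3⟩ := mem_cube.1 hx1
    set t : ℝ := (x 0 - a) / p with ht
    have ht0 : 0 < t := div_pos (by linarith) hp
    have htp : t * p = x 0 - a := div_mul_cancel₀ _ hp.ne'
    have hc0 : 0 < ⌈t⌉₊ := Nat.ceil_pos.2 ht0
    have hcN : ⌈t⌉₊ ≤ N := by
      rw [Nat.ceil_le, ht, div_le_iff₀ hp, hN]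
      linarith
    have hc1 : ((⌈t⌉₊ - 1 : ℕ) : ℝ) = ⌈t⌉₊ - 1 := by
      rw [Nat.cast_sub hc0]
      simp
    have hjlt : ((⌈t⌉₊ - 1 : ℕ) : ℝ) < t := by
      rw [hc1]
      have := Nat.ceil_lt_add_one ht0.le
      linarith
    have hjge : t ≤ ((⌈t⌉₊ - 1 : ℕ) : ℝ) + 1 := by
      rw [hc1]
      have := Nat.le_ceil t
      linarith
    refine mem_iUnion.2 ⟨⟨⌈t⌉₊ - 1, by omega⟩, ?_⟩
    have h4 : a + ((⌈t⌉₊ - 1 : ℕ) : ℝ) * p < x 0 := by nlinarith
    have h5 : x 0 ≤ a + ((⌈t⌉₊ - 1 : ℕ) : ℝ) * p + p := by nlinarith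
    have h6 : a + ((⌈t⌉₊ - 1 : ℕ) : ℝ) * p + (1 - h) * p ≤ x 0 := by
      by_contra h7
      exact hx2 (mem_PB.2 ⟨⟨⌈t⌉₊ - 1, by omega⟩, ⟨h4, not_le.1 h7⟩, h3⟩)
    rw [hS, mem_Icc]
    constructor
    · intro i
      refine Fin.cases ?_ (fun i => ?_) i
      · simpa using h6
      · simpa [Fin.succ_ne_zero] using (h3 i).1.le
    · intro i
      refine Fin.cases ?_ (fun i => ?_) i
      · simpa using h5
      · simpa [Fin.succ_ne_zero] using (h3 i).2.le
  have hvS : ∀ j, volume (S j) = ENNReal.ofReal (h * p * R ^ n) := by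
    intro j
    rw [hS]
    simp only
    rw [Real.volume_Icc_pi, vol_prod (s := h * p) (r := R) ?_ (fun i => ?_) (by positivity) hR]
    · simp only [if_true]
      ring
    · simp [Fin.succ_ne_zero]
  calc volume (box (corner n a) (fun i => corner n a i + R) \ PB n a p h R N) ≤
      volume (⋃ j, S j) := measure_mono hsub
    _ ≤ ∑ j, volume (S j) := measure_iUnion_fintype_le _ _
    _ = ENNReal.ofReal (h * R ^ (n + 1)) := by
      simp_rw [hvS]
      rw [Finset.sum_const, Finset.card_univ, Fintype.card_fin, nsmul_eq_mul,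
        ← ENNReal.ofReal_natCast, ← ENNReal.ofReal_mul (by positivity)]
      congr 1
      rw [← hN]
      ring

theorem PB_cell {a p h R : ℝ} {N : ℕ} {k₀ : ℤ} (hp : 0 < p) (hh : 0 ≤ h) (hh1 : h ≤ 1)
    (ha : a = k₀ * p) (k : Fin (n + 1) → ℤ) :
    volume (cell p k ∩ PB n a p h R N) ≤ ENNReal.ofReal ((1 - h) * p ^ (n + 1)) := by
  set l : Fin (n + 1) → ℝ := fun i => k i * p with hl
  set u : Fin (n + 1) → ℝ := fun i => if i = 0 then k i * p + (1 - h) * p else (k i + 1) * p with hu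
  have hsub : cell p k ∩ PB n a p h R N ⊆ Set.pi univ fun i => Ico (l i) (u i) := by
    rintro x ⟨hx1, hx2⟩
    have hx3 := (mem_cell hp).1 hx1
    unfold cell at hx1
    rw [mem_univ_pi] at hx1 ⊢
    obtain ⟨j, ⟨h1, h2⟩, h3⟩ := mem_PB.1 hx2
    intro i
    refine Fin.cases ?_ (fun i => ?_) i
    · refine ⟨(hx1 0).1, ?_⟩
      have h4 : k 0 = k₀ + (j : ℕ) := by
        rw [← hx3 0, Int.floor_eq_iff]
        rw [ha] at h1 h2
        push_cast
        rw [le_div_iff₀ hp, div_lt_iff₀ hp]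
        constructor <;> nlinarith [mul_nonneg hh hp.le]
      simp only [hu, if_true, h4]
      push_cast
      rw [ha] at h2
      linarith
    · have := hx1 i.succ
      simp only [hl, hu, Fin.succ_ne_zero, if_false]
      exact this
  have h1h : 0 ≤ 1 - h := by linarith
  refine (measure_mono hsub).trans (le_of_eq ?_)
  rw [Real.volume_pi_Ico, vol_prod (s := (1 - h) * p) (r := p) ?_ (fun i => ?_) (by positivity) hp.le]
  · congr 1
    ring
  · simp only [hl, hu, if_true]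
    ring
  · simp only [hl, hu, Fin.succ_ne_zero, if_false]
    ring

end Pool.Agent.E8helper23.MO
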