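import Pool.Agent.E8helper23.MO.Poin2
import Pool.Agent.E8helper23.MO.Cap

/-!
# Lower bounds of the first eigenvalue from a grid of cells
-/

set_option autoImplicit false

namespace Pool.Agent.E8helper23.MO

open MeasureTheory Filter Topology Set
open scoped ENNReal NNReal ContDiff

variable {d : ℕ}

/-- the cell of index `k` of the grid of mesh `l` -/
def cell (l : ℝ) (k : Fin d → ℤ) : Set (Sp d) :=
  Set.pi univ fun i => Ico (k i * l) ((k i + 1) * l)

theorem cell_meas (l : ℝ) (k : Fin d → ℤ) : MeasurableSet (cell l k) :=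
  MeasurableSet.univ_pi fun _ => measurableSet_Ico

theorem cell_convex (l : ℝ) (k : Fin d → ℤ) : Convex ℝ (cell l k) :=
  convex_pi fun _ _ => convex_Ico _ _

theorem mem_cell {l : ℝ} (hl : 0 < l) {k : Fin d → ℤ} {x : Sp d} :
    x ∈ cell l k ↔ ∀ i, ⌊x i / l⌋ = k i := by
  unfold cell
  rw [mem_univ_pi]
  refine forall_congr' fun i => ?_
  rw [Int.floor_eq_iff, mem_Ico, le_div_iff₀ hl, div_lt_iff₀ hl]

theorem cell_disj {l : ℝ} (hl : 0 < l) :
    Pairwise (Function.onFun Disjoint (cell (d := d) l)) := by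
  intro k k' hkk
  refine Set.disjoint_left.2 fun x hx hx' => hkk ?_
  rw [mem_cell hl] at hx hx'
  funext i
  rw [← hx i, ← hx' i]

theorem cell_union {l : ℝ} (hl : 0 < l) : (⋃ k : Fin d → ℤ, cell l k) = univ := by
  refine eq_univ_of_forall fun x => mem_iUnion.2 ⟨fun i => ⌊x i / l⌋, ?_⟩
  rw [mem_cell hl]
  exact fun i => rfl

theorem cell_vol {l : ℝ} (hl : 0 < l) (k : Fin d → ℤ) :
    volume (cell l k) = ENNReal.ofReal (l ^ d) := by
  unfold cell
  rw [Real.volume_pi_Ico]
  have : ∀ i, ENNReal.ofReal ((k i + 1) * l - k i * l) = ENNReal.ofReal l := fun i => by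
    congr 1
    ring
  simp_rw [this]
  rw [Finset.prod_const, Finset.card_univ, Fintype.card_fin, ENNReal.ofReal_pow hl.le]

theorem cell_diam {l : ℝ} {k : Fin d → ℤ} {x y : Sp d} (hx : x ∈ cell l k) (hy : y ∈ cell l k)
    (i : Fin d) : |x i - y i| ≤ l := by
  have h1 := (mem_univ_pi.1 hx) i
  have h2 := (mem_univ_pi.1 hy) i
  rw [mem_Ico] at h1 h2
  rw [abs_le]
  constructor <;> nlinarith [h1.1, h1.2, h2.1, h2.2]

/-- If `Ω` leaves free a fixed proportion of each cell, its first eigenvalue is large. -/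
theorem lower_grid (hd : 0 < d) {Ω : Set (Sp d)} {l η : ℝ} (hl : 0 < l)
    (h : ∀ k, volume (cell l k ∩ Ω) ≤ ENNReal.ofReal ((1 - η) * l ^ d)) (hη1 : η ≤ 1) :
    ENNReal.ofReal (η / (d * 2 ^ d * l ^ 2)) ≤ lambda1 Ω := by
  refine le_lambda1 fun u g hu hm => ENNReal.ofReal_le_ofReal ?_
  have hm0 : 0 < mass u := lt_of_le_of_ne (mass_nonneg u) (Ne.symm hm)
  have hd' : (0 : ℝ) < d := by exact_mod_cast hd
  rw [div_le_div_iff₀ (by positivity) hm0]
  set E := toMeasurable volume Ω with hE
  have hEm : MeasurableSet E := measurableSet_toMeasurable _ _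
  have hE0 : ∀ᵐ x, x ∉ E → u x = 0 := by
    filter_upwards [hu.ae_zero] with x hx hxE
    exact hx fun h2 => hxE (subset_toMeasurable _ _ h2)
  have hcell : ∀ k, η * ∫ x in cell l k, u x ^ 2 ≤
      d * 2 ^ d * l ^ 2 * ∫ x in cell l k, ∑ i, g i x ^ 2 := by
    intro k
    have hvol : volume.real (cell l k) = l ^ d := by
      rw [Measure.real, cell_vol hl, ENNReal.toReal_ofReal (by positivity)]
    refine poinc_cell (E := E) (cell_convex l k) (cell_meas l k) ?_ hEm ?_ ?_ ?_ hu.1 hE0
    · rw [cell_vol hl]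
      exact ENNReal.ofReal_ne_top
    · rw [hvol]
      positivity
    · rw [hvol, Measure.real]
      have h1 : volume (cell l k ∩ E) = volume (cell l k ∩ Ω) := by
        rw [inter_comm, hE, Measure.measure_toMeasurable_inter_of_sFinite (cell_meas l k), inter_comm]
      rw [h1]
      refine ENNReal.toReal_le_of_le_ofReal ?_ (h k)
      exact mul_nonneg (by linarith) (by positivity)
    · exact fun x hx y hy i => cell_diam hx hy i
  have hi1 : Integrable (fun x => u x ^ 2) := intsq hu.1.1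
  have hi2 : Integrable (fun x => ∑ i, g i x ^ 2) :=
    integrable_finsetSum _ fun i _ => intsq (hu.1.2.1 i)
  have s1 : HasSum (fun k => ∫ x in cell l k, u x ^ 2) (mass u) := by
    have := hasSum_integral_iUnion (μ := volume) (f := fun x => u x ^ 2)
      (fun k => cell_meas (d := d) l k) (cell_disj hl) (by
        rw [cell_union hl, integrableOn_univ]
        exact hi1)
    rw [cell_union hl, setIntegral_univ] at this
    exact this
  have s2 : HasSum (fun k => ∫ x in cell l k, ∑ i, g i x ^ 2) (energy g) := by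
    have := hasSum_integral_iUnion (μ := volume) (f := fun x => ∑ i, g i x ^ 2)
      (fun k => cell_meas (d := d) l k) (cell_disj hl) (by
        rw [cell_union hl, integrableOn_univ]
        exact hi2)
    rw [cell_union hl, setIntegral_univ] at this
    exact this
  have h3 := hasSum_le hcell (s1.mul_left η) (s2.mul_left (d * 2 ^ d * l ^ 2))
  linarith

/-- A crude Faber–Krahn inequality. -/
theorem crude_fk (hd : 0 < d) {Ω : Set (Sp d)} {l : ℝ} (hl : 0 < l)
    (h : volume Ω ≤ ENNReal.ofReal (l ^ d / 2)) :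
    ENNReal.ofReal (1 / (2 * (d * 2 ^ d) * l ^ 2)) ≤ lambda1 Ω := by
  have h1 := lower_grid hd (Ω := Ω) (η := 1 / 2) hl (fun k => (measure_mono inter_subset_right).trans
    (h.trans (le_of_eq (by congr 1; ring)))) (by norm_num)
  refine le_trans (le_of_eq ?_) h1
  congr 1
  rw [div_div]
  ring_nf

/-- If `D` leaves free a fixed proportion `2 η` of each cell, and `Ω \ D` is small then the first
eigenvalue of `Ω` is large. -/
theorem lower_grid' (hd : 0 < d) {Ω D : Set (Sp d)} {l η : ℝ} (hl : 0 < l) (hη : 0 ≤ η)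
    (hη1 : 2 * η ≤ 1)
    (h : ∀ k, volume (cell l k ∩ D) ≤ ENNReal.ofReal ((1 - 2 * η) * l ^ d))
    (h2 : volume (Ω \ D) ≤ ENNReal.ofReal (η * l ^ d)) :
    ENNReal.ofReal (η / (d * 2 ^ d * l ^ 2)) ≤ lambda1 Ω := by
  refine lower_grid hd hl (fun k => ?_) (by linarith)
  calc volume (cell l k ∩ Ω) ≤ volume ((cell l k ∩ D) ∪ (Ω \ D)) := measure_mono (by
        rintro x ⟨h3, h4⟩
        by_cases h5 : x ∈ D
        · exact Or.inl ⟨h3, h5⟩
        · exact Or.inr ⟨h4, h5⟩)
    _ ≤ volume (cell l k ∩ D) + volume (Ω \ D) := measure_union_le _ _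
    _ ≤ ENNReal.ofReal ((1 - 2 * η) * l ^ d) + ENNReal.ofReal (η * l ^ d) := add_le_add (h k) h2
    _ = ENNReal.ofReal ((1 - η) * l ^ d) := by
      have : 0 ≤ 1 - 2 * η := by linarith
      rw [← ENNReal.ofReal_add (by positivity) (by positivity)]
      congr 1
      ring

end Pool.Agent.E8helper23.MO
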