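import Pool.Agent.E8helper23.MO.ProdRule

/-!
# The localisation formula
-/

set_option autoImplicit false

namespace Pool.Agent.E8helper23.MO

open MeasureTheory Filter Topology Set
open scoped ENNReal NNReal ContDiff

variable {d : ℕ}

theorem pd_cos {θ : Sp d → ℝ} (hθ : ContDiff ℝ ∞ θ) (i : Fin d) (x : Sp d) :
    pd i (fun x => Real.cos (θ x)) x = - Real.sin (θ x) * pd i θ x := by
  unfold pd
  have h1 : DifferentiableAt ℝ θ x := (hθ.differentiable (by simp)) x
  rw [fderiv_cos h1]
  simp

theorem pd_sin {θ : Sp d → ℝ} (hθ : ContDiff ℝ ∞ θ) (i : Fin d) (x : Sp d) :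
    pd i (fun x => Real.sin (θ x)) x = Real.cos (θ x) * pd i θ x := by
  unfold pd
  have h1 : DifferentiableAt ℝ θ x := (hθ.differentiable (by simp)) x
  rw [fderiv_sin h1]
  simp

/-- Localisation: cutting by `cos θ` and `sin θ`. -/
theorem ims {Ω V₁ V₂ : Set (Sp d)} {θ : Sp d → ℝ} (hθ : ContDiff ℝ ∞ θ) {M : ℝ}
    (hM : ∀ i x, |pd i θ x| ≤ M) {δ : ℝ} (hδ : ∀ x, ∑ i, pd i θ x ^ 2 ≤ δ)
    (h1 : ∀ x, Real.cos (θ x) ≠ 0 → x ∈ V₁) (h2 : ∀ x, Real.sin (θ x) ≠ 0 → x ∈ V₂) :
    min (lambda1 (Ω ∩ V₁)) (lambda1 (Ω ∩ V₂)) ≤ lambda1 Ω + ENNReal.ofReal δ := by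
  have hδ0 : 0 ≤ δ := (Finset.sum_nonneg fun i _ => sq_nonneg _).trans (hδ 0)
  set M' := max 1 M with hM'
  have hc : Mult (fun x => Real.cos (θ x)) M' := by
    refine ⟨Real.contDiff_cos.comp hθ, fun x => (Real.abs_cos_le_one _).trans (le_max_left _ _),
      fun i x => ?_⟩
    rw [pd_cos hθ, abs_mul, abs_neg]
    calc |Real.sin (θ x)| * |pd i θ x| ≤ 1 * |pd i θ x| :=
          mul_le_mul_of_nonneg_right (Real.abs_sin_le_one _) (abs_nonneg _)
      _ ≤ M' := by
        rw [one_mul]
        exact (hM i x).trans (le_max_right _ _)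
  have hs : Mult (fun x => Real.sin (θ x)) M' := by
    refine ⟨Real.contDiff_sin.comp hθ, fun x => (Real.abs_sin_le_one _).trans (le_max_left _ _),
      fun i x => ?_⟩
    rw [pd_sin hθ, abs_mul]
    calc |Real.cos (θ x)| * |pd i θ x| ≤ 1 * |pd i θ x| :=
          mul_le_mul_of_nonneg_right (Real.abs_cos_le_one _) (abs_nonneg _)
      _ ≤ M' := by
        rw [one_mul]
        exact (hM i x).trans (le_max_right _ _)
  unfold lambda1 at *
  rw [ENNReal.iInf_add]
  refine le_iInf fun u => ?_
  rw [ENNReal.iInf_add]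
  refine le_iInf fun g => ?_
  by_cases hu : IsH10 Ω u g
  swap
  · simp [hu]
  by_cases hm : mass u = 0
  · simp [hm]
  simp only [hu, hm, not_false_eq_true, ne_eq, iInf_pos]
  have hm0 : 0 < mass u := lt_of_le_of_ne (mass_nonneg u) (Ne.symm hm)
  set u1 : Sp d → ℝ := fun x => Real.cos (θ x) * u x with hu1
  set g1 : Fin d → Sp d → ℝ := fun i x => Real.cos (θ x) * g i x +
    u x * pd i (fun x => Real.cos (θ x)) x with hg1
  set u2 : Sp d → ℝ := fun x => Real.sin (θ x) * u x with hu2
  set g2 : Fin d → Sp d → ℝ := fun i x => Real.sin (θ x) * g i x +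
    u x * pd i (fun x => Real.sin (θ x)) x with hg2
  have k1 : IsH10 (Ω ∩ V₁) u1 g1 := hu.mul hc h1
  have k2 : IsH10 (Ω ∩ V₂) u2 g2 := hu.mul hs h2
  have hmass : mass u1 + mass u2 = mass u := by
    unfold mass
    rw [← integral_add (intsq k1.1.1) (intsq k2.1.1)]
    refine integral_congr_ae (Eventually.of_forall fun x => ?_)
    simp only [hu1, hu2]
    have := Real.sin_sq_add_cos_sq (θ x)
    calc _ = (Real.sin (θ x) ^ 2 + Real.cos (θ x) ^ 2) * u x ^ 2 := by ring
      _ = u x ^ 2 := by rw [this, one_mul]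
  have igs : ∀ {g : Fin d → Sp d → ℝ}, (∀ i, MemLp (g i) 2 volume) →
      Integrable (fun x => ∑ i, g i x ^ 2) := fun hg => integrable_finsetSum _ fun i _ => intsq (hg i)
  have hen : energy g1 + energy g2 ≤ energy g + δ * mass u := by
    unfold energy mass
    rw [← integral_add (igs k1.1.2.1) (igs k2.1.2.1), ← integral_const_mul,
      ← integral_add (igs hu.1.2.1) ((intsq hu.1.1).const_mul _)]
    refine integral_mono ((igs k1.1.2.1).add (igs k2.1.2.1))
      ((igs hu.1.2.1).add ((intsq hu.1.1).const_mul _)) fun x => ?_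
    simp only [hg1, hg2]
    rw [← Finset.sum_add_distrib]
    have e1 : ∀ i, (Real.cos (θ x) * g i x + u x * pd i (fun x => Real.cos (θ x)) x) ^ 2 +
        (Real.sin (θ x) * g i x + u x * pd i (fun x => Real.sin (θ x)) x) ^ 2 =
        g i x ^ 2 + u x ^ 2 * pd i θ x ^ 2 := by
      intro i
      rw [pd_cos hθ, pd_sin hθ]
      have := Real.sin_sq_add_cos_sq (θ x)
      calc _ = (Real.sin (θ x) ^ 2 + Real.cos (θ x) ^ 2) * (g i x ^ 2 + u x ^ 2 * pd i θ x ^ 2) := by
            ring
        _ = _ := by rw [this, one_mul]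
    simp_rw [e1]
    rw [Finset.sum_add_distrib, ← Finset.mul_sum]
    have := mul_le_mul_of_nonneg_left (hδ x) (sq_nonneg (u x))
    linarith
  have e1 := mass_nonneg u1
  have e2 := mass_nonneg u2
  have e3 := energy_nonneg g1
  have e4 := energy_nonneg g2
  have hex : (mass u1 ≠ 0 ∧ energy g1 / mass u1 ≤ energy g / mass u + δ) ∨
      (mass u2 ≠ 0 ∧ energy g2 / mass u2 ≤ energy g / mass u + δ) := by
    have e0 : energy g / mass u + δ = (energy g + δ * mass u) / mass u := by
      field_simp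
    rw [e0]
    by_contra hcon
    push Not at hcon
    obtain ⟨hc1, hc2⟩ := hcon
    have t1 : (energy g + δ * mass u) / mass u * mass u1 ≤ energy g1 ∧
        (mass u1 ≠ 0 → (energy g + δ * mass u) / mass u * mass u1 < energy g1) := by
      by_cases h : mass u1 = 0
      · rw [h]
        exact ⟨by simpa using e3, fun h => absurd rfl h⟩
      · have h5 : 0 < mass u1 := lt_of_le_of_ne e1 (Ne.symm h)
        have h6 := (lt_div_iff₀ h5).1 (hc1 h)
        exact ⟨h6.le, fun _ => h6⟩
    have t2 : (energy g + δ * mass u) / mass u * mass u2 ≤ energy g2 ∧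
        (mass u2 ≠ 0 → (energy g + δ * mass u) / mass u * mass u2 < energy g2) := by
      by_cases h : mass u2 = 0
      · rw [h]
        exact ⟨by simpa using e4, fun h => absurd rfl h⟩
      · have h5 : 0 < mass u2 := lt_of_le_of_ne e2 (Ne.symm h)
        have h6 := (lt_div_iff₀ h5).1 (hc2 h)
        exact ⟨h6.le, fun _ => h6⟩
    have t3 : (energy g + δ * mass u) / mass u * mass u1 +
        (energy g + δ * mass u) / mass u * mass u2 = energy g + δ * mass u := by
      rw [← mul_add, hmass]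
      field_simp
    by_cases h : mass u1 = 0
    · have h' : mass u2 ≠ 0 := by
        rw [h, zero_add] at hmass
        rw [hmass]
        exact hm
      have := t2.2 h'
      linarith [t1.1]
    · have := t1.2 h
      linarith [t2.1]
  have hq : 0 ≤ energy g / mass u := div_nonneg (energy_nonneg g) hm0.le
  rw [← ENNReal.ofReal_add hq hδ0]
  rcases hex with ⟨h3, h4⟩ | ⟨h3, h4⟩
  · exact (min_le_left _ _).trans ((lambda1_le k1 h3).trans (ENNReal.ofReal_le_ofReal h4))
  · exact (min_le_right _ _).trans ((lambda1_le k2 h3).trans (ENNReal.ofReal_le_ofReal h4))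

/-- The derivative of the smooth transition is bounded. -/
theorem st_bdd : ∃ S : ℝ, 0 ≤ S ∧ ∀ t, |deriv Real.smoothTransition t| ≤ S := by
  have hc : Continuous (deriv Real.smoothTransition) :=
    (Real.smoothTransition.contDiff (n := 1)).continuous_deriv (by simp)
  obtain ⟨S, hS⟩ := (isCompact_Icc (a := (0 : ℝ)) (b := 1)).exists_bound_of_continuousOn
    hc.continuousOn
  refine ⟨S, (norm_nonneg _).trans (hS 0 (by simp)), fun t => ?_⟩
  have hS0 : 0 ≤ S := (norm_nonneg _).trans (hS 0 (by simp))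
  rcases lt_or_ge t 0 with h | h
  · have : deriv Real.smoothTransition t = 0 := by
      have h1 : Real.smoothTransition =ᶠ[𝓝 t] fun _ => 0 := by
        filter_upwards [Iio_mem_nhds h] with s hs
        exact Real.smoothTransition.zero_of_nonpos (le_of_lt hs)
      rw [h1.deriv_eq]
      simp
    rw [this, abs_zero]
    exact hS0
  rcases lt_or_ge 1 t with h' | h'
  · have : deriv Real.smoothTransition t = 0 := by
      have h1 : Real.smoothTransition =ᶠ[𝓝 t] fun _ => 1 := by
        filter_upwards [Ioi_mem_nhds h'] with s hs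
        exact Real.smoothTransition.one_of_one_le (le_of_lt hs)
      rw [h1.deriv_eq]
      simp
    rw [this, abs_zero]
    exact hS0
  · exact hS t ⟨h, h'⟩

/-- functions of one coordinate -/
theorem pd_coord {f : ℝ → ℝ} (hf : ContDiff ℝ ∞ f) (j i : Fin d) (x : Sp d) :
    pd i (fun x : Sp d => f (x j)) x = if i = j then deriv f (x j) else 0 := by
  unfold pd
  have h1 : DifferentiableAt ℝ f (x j) := (hf.differentiable (by simp)) _
  have h2 : HasFDerivAt (fun x : Sp d => x j) (ContinuousLinearMap.proj j : Sp d →L[ℝ] ℝ) x :=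
    (ContinuousLinearMap.proj j : Sp d →L[ℝ] ℝ).hasFDerivAt
  have h3 := h1.hasDerivAt.comp_hasFDerivAt x h2
  have h4 : fderiv ℝ (fun x : Sp d => f (x j)) x =
      deriv f (x j) • (ContinuousLinearMap.proj j : Sp d →L[ℝ] ℝ) := h3.fderiv
  rw [h4]
  simp only [FunLike.coe_smul, Pi.smul_apply, ContinuousLinearMap.proj_apply, smul_eq_mul,
    Pi.single_apply]
  by_cases hij : i = j
  · subst hij
    simp
  · rw [if_neg hij, if_neg (fun h => hij h.symm), mul_zero]

/-- Localisation with respect to the first coordinate. -/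
theorem cut (n : ℕ) {δ : ℝ} (hδ : 0 < δ) : ∃ W₀ : ℝ, 0 < W₀ ∧ ∀ W, W₀ ≤ W →
    ∀ (a : ℝ) (Ω : Set (Sp (n + 1))),
    min (lambda1 (Ω ∩ {x | x 0 < a + W})) (lambda1 (Ω ∩ {x | a < x 0})) ≤
      lambda1 Ω + ENNReal.ofReal δ := by
  obtain ⟨S, hS0, hS⟩ := st_bdd
  set W₀ : ℝ := Real.pi / 2 * S / Real.sqrt δ + 1 with hW₀
  have hpi := Real.pi_pos
  have hsq : 0 < Real.sqrt δ := Real.sqrt_pos.2 hδ
  have hW₀p : 0 < W₀ := by positivity
  refine ⟨W₀, hW₀p, fun W hW a Ω => ?_⟩
  have hWp : 0 < W := hW₀p.trans_le hW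
  set f : ℝ → ℝ := fun t => Real.pi / 2 * Real.smoothTransition ((t - a) / W) with hf
  have hfc : ContDiff ℝ ∞ f := by
    refine contDiff_const.mul (Real.smoothTransition.contDiff.comp ?_)
    exact (contDiff_id.sub contDiff_const).div_const W
  have hfd : ∀ t, deriv f t = Real.pi / 2 * (deriv Real.smoothTransition ((t - a) / W) / W) := by
    intro t
    have h1 : HasDerivAt (fun t : ℝ => (t - a) / W) (1 / W) t :=
      ((hasDerivAt_id t).sub_const a).div_const W
    have h2 : HasDerivAt Real.smoothTransition (deriv Real.smoothTransition ((t - a) / W))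
        ((t - a) / W) := by
      have : Differentiable ℝ Real.smoothTransition :=
        (Real.smoothTransition.contDiff (n := 1)).differentiable (by simp)
      exact (this _).hasDerivAt
    have h3 : HasDerivAt f (Real.pi / 2 * (deriv Real.smoothTransition ((t - a) / W) * (1 / W))) t :=
      (h2.comp t h1).const_mul (Real.pi / 2)
    rw [h3.deriv]
    ring
  have hfb : ∀ t, |deriv f t| ≤ Real.sqrt δ := by
    intro t
    rw [hfd, abs_mul, abs_of_pos (by positivity : 0 < Real.pi / 2), abs_div, abs_of_pos hWp]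
    calc Real.pi / 2 * (|deriv Real.smoothTransition ((t - a) / W)| / W) ≤
        Real.pi / 2 * (S / W) := by
          refine mul_le_mul_of_nonneg_left ?_ (by positivity)
          exact div_le_div_of_nonneg_right (hS _) hWp.le
      _ = (Real.pi / 2 * S) / W := by ring
      _ ≤ Real.sqrt δ := by
        rw [div_le_iff₀ hWp]
        have h5 : Real.pi / 2 * S / Real.sqrt δ ≤ W := by linarith
        rw [div_le_iff₀ hsq] at h5
        linarith
  refine ims (θ := fun x : Sp (n + 1) => f (x 0)) (M := Real.sqrt δ) ?_ (fun i x => ?_) (fun x => ?_)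
    (fun x hx => ?_) (fun x hx => ?_)
  · exact hfc.comp (contDiff_apply ℝ ℝ (0 : Fin (n + 1)))
  · rw [pd_coord hfc]
    split_ifs
    · exact hfb _
    · rw [abs_zero]
      exact hsq.le
  · rw [Finset.sum_eq_single 0]
    · rw [pd_coord hfc, if_pos rfl, ← sq_abs]
      calc |deriv f (x 0)| ^ 2 ≤ Real.sqrt δ ^ 2 := pow_le_pow_left₀ (abs_nonneg _) (hfb _) 2
        _ = δ := Real.sq_sqrt hδ.le
    · intro i _ hi
      rw [pd_coord hfc, if_neg hi]
      ring
    · simp
  · by_contra h
    apply hx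
    have h1 : a + W ≤ x 0 := not_lt.1 h
    simp only [hf]
    rw [Real.smoothTransition.one_of_one_le ((one_le_div hWp).2 (by linarith)), mul_one]
    exact Real.cos_pi_div_two
  · by_contra h
    apply hx
    have h1 : x 0 ≤ a := not_lt.1 h
    simp only [hf]
    rw [Real.smoothTransition.zero_of_nonpos (div_nonpos_of_nonpos_of_nonneg (by linarith) hWp.le),
      mul_zero]
    exact Real.sin_zero

end Pool.Agent.E8helper23.MO
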