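import Pool.Agent.E8helper23.MO.Defs

set_option autoImplicit false

namespace Pool.Agent.E8helper23.MO

open MeasureTheory Filter Topology Set
open scoped ENNReal NNReal ContDiff

section gen

variable {X : Type*} [MeasurableSpace X] {μ : Measure X}

theorem intsq {f : X → ℝ} (hf : MemLp f 2 μ) : Integrable (fun x => f x ^ 2) μ := hf.integrable_sq

theorem intsq_sub {f g : X → ℝ} (hf : MemLp f 2 μ) (hg : MemLp g 2 μ) :
    Integrable (fun x => (f x - g x) ^ 2) μ := (hf.sub hg).integrable_sq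

/-- convergence of squares -/
theorem conv_sq {f : ℕ → X → ℝ} {g : X → ℝ} (hf : ∀ n, MemLp (f n) 2 μ) (hg : MemLp g 2 μ)
    (h : Tendsto (fun n => ∫ x, (f n x - g x) ^ 2 ∂μ) atTop (𝓝 0)) :
    Tendsto (fun n => ∫ x, f n x ^ 2 ∂μ) atTop (𝓝 (∫ x, g x ^ 2 ∂μ)) := by
  have key : ∀ n, ∀ η : ℝ, 0 < η → |(∫ x, f n x ^ 2 ∂μ) - ∫ x, g x ^ 2 ∂μ| ≤
      η * (∫ x, g x ^ 2 ∂μ) + (1 + 1 / η) * ∫ x, (f n x - g x) ^ 2 ∂μ := by
    intro n η hη
    rw [← integral_sub (intsq (hf n)) (intsq hg), ← integral_const_mul, ← integral_const_mul,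
      ← integral_add ((intsq hg).const_mul _) ((intsq_sub (hf n) hg).const_mul _)]
    refine abs_integral_le_integral_abs.trans (integral_mono ?_ ?_ ?_)
    · exact ((intsq (hf n)).sub (intsq hg)).abs
    · exact ((intsq hg).const_mul _).add ((intsq_sub (hf n) hg).const_mul _)
    · intro x
      simp only
      obtain ⟨a, ha⟩ : ∃ a, f n x - g x = a := ⟨_, rfl⟩
      have h1 : f n x = g x + a := by linarith
      rw [ha, h1, abs_le]
      have h2 : 0 ≤ (η * g x - a) ^ 2 / η := by positivity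
      have h3 : 0 ≤ (η * g x + a) ^ 2 / η := by positivity
      have h4 : (η * g x - a) ^ 2 / η = η * g x ^ 2 - 2 * g x * a + 1 / η * a ^ 2 := by
        field_simp
        ring
      have h5 : (η * g x + a) ^ 2 / η = η * g x ^ 2 + 2 * g x * a + 1 / η * a ^ 2 := by
        field_simp
        ring
      constructor <;> nlinarith [sq_nonneg a]
  have hG : 0 ≤ ∫ x, g x ^ 2 ∂μ := integral_nonneg fun x => sq_nonneg _
  rw [Metric.tendsto_atTop]
  intro ε hε
  obtain ⟨η, hη, hη1⟩ : ∃ η : ℝ, 0 < η ∧ η * (∫ x, g x ^ 2 ∂μ) < ε / 2 := by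
    refine ⟨ε / 2 / (∫ x, g x ^ 2 ∂μ + 1), by positivity, ?_⟩
    rw [div_mul_eq_mul_div, div_lt_iff₀ (by linarith)]
    nlinarith
  have h1 : Tendsto (fun n => (1 + 1 / η) * ∫ x, (f n x - g x) ^ 2 ∂μ) atTop (𝓝 0) := by
    simpa using h.const_mul (1 + 1 / η)
  obtain ⟨N, hN⟩ := (Metric.tendsto_atTop.1 h1) (ε / 2) (by positivity)
  refine ⟨N, fun n hn => ?_⟩
  have h2 := hN n hn
  rw [Real.dist_eq, sub_zero] at h2
  rw [Real.dist_eq]
  have h3 := key n η hη
  have h4 := le_abs_self ((1 + 1 / η) * ∫ x, (f n x - g x) ^ 2 ∂μ)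
  linarith

/-- convergence of integrals for finite measures -/
theorem conv_int [IsFiniteMeasure μ] {f : ℕ → X → ℝ} {g : X → ℝ} (hf : ∀ n, MemLp (f n) 2 μ)
    (hg : MemLp g 2 μ) (h : Tendsto (fun n => ∫ x, (f n x - g x) ^ 2 ∂μ) atTop (𝓝 0)) :
    Tendsto (fun n => ∫ x, f n x ∂μ) atTop (𝓝 (∫ x, g x ∂μ)) := by
  have hf1 : ∀ n, Integrable (f n) μ := fun n => (hf n).integrable (by norm_num)
  have hg1 : Integrable g μ := hg.integrable (by norm_num)
  have key : ∀ n, ∀ η : ℝ, 0 < η → |(∫ x, f n x ∂μ) - ∫ x, g x ∂μ| ≤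
      η * μ.real univ + (1 / (4 * η)) * ∫ x, (f n x - g x) ^ 2 ∂μ := by
    intro n η hη
    have e1 : η * μ.real univ = ∫ _, η ∂μ := by simp [mul_comm]
    rw [← integral_sub (hf1 n) hg1, e1, ← integral_const_mul,
      ← integral_add (integrable_const _) ((intsq_sub (hf n) hg).const_mul _)]
    refine abs_integral_le_integral_abs.trans (integral_mono ?_ ?_ ?_)
    · exact ((hf1 n).sub hg1).abs
    · exact (integrable_const _).add ((intsq_sub (hf n) hg).const_mul _)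
    · intro x
      simp only
      obtain ⟨a, ha⟩ : ∃ a, f n x - g x = a := ⟨_, rfl⟩
      rw [ha, abs_le]
      have h2 : 0 ≤ (2 * η - a) ^ 2 / (4 * η) := by positivity
      have h3 : 0 ≤ (2 * η + a) ^ 2 / (4 * η) := by positivity
      have h4 : (2 * η - a) ^ 2 / (4 * η) = η - a + 1 / (4 * η) * a ^ 2 := by
        field_simp
        ring
      have h5 : (2 * η + a) ^ 2 / (4 * η) = η + a + 1 / (4 * η) * a ^ 2 := by
        field_simp
        ring
      constructor <;> linarith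
  rw [Metric.tendsto_atTop]
  intro ε hε
  have hG : 0 ≤ μ.real univ := measureReal_nonneg
  obtain ⟨η, hη, hη1⟩ : ∃ η : ℝ, 0 < η ∧ η * μ.real univ < ε / 2 := by
    refine ⟨ε / 2 / (μ.real univ + 1), by positivity, ?_⟩
    rw [div_mul_eq_mul_div, div_lt_iff₀ (by linarith)]
    nlinarith
  have h1 : Tendsto (fun n => (1 / (4 * η)) * ∫ x, (f n x - g x) ^ 2 ∂μ) atTop (𝓝 0) := by
    simpa using h.const_mul (1 / (4 * η))
  obtain ⟨N, hN⟩ := (Metric.tendsto_atTop.1 h1) (ε / 2) (by positivity)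
  refine ⟨N, fun n hn => ?_⟩
  have h2 := hN n hn
  rw [Real.dist_eq, sub_zero] at h2
  rw [Real.dist_eq]
  have h3 := key n η hη
  have h4 := le_abs_self ((1 / (4 * η)) * ∫ x, (f n x - g x) ^ 2 ∂μ)
  linarith

/-- restriction of convergence to a set -/
theorem conv_restrict {f : ℕ → X → ℝ} {g : X → ℝ} (hf : ∀ n, MemLp (f n) 2 μ) (hg : MemLp g 2 μ)
    (h : Tendsto (fun n => ∫ x, (f n x - g x) ^ 2 ∂μ) atTop (𝓝 0)) (Q : Set X) :
    Tendsto (fun n => ∫ x in Q, (f n x - g x) ^ 2 ∂μ) atTop (𝓝 0) := by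
  refine squeeze_zero (fun n => integral_nonneg fun x => sq_nonneg _) (fun n => ?_) h
  exact setIntegral_le_integral (intsq_sub (hf n) hg) (Eventually.of_forall fun x => sq_nonneg _)

end gen

variable {d : ℕ}

theorem IsTest.pd_cont {φ : Sp d → ℝ} (h : IsTest φ) (i : Fin d) : Continuous (pd i φ) := by
  have h1 : Continuous (fderiv ℝ φ) := h.1.continuous_fderiv (by simp)
  exact h1.clm_apply continuous_const

theorem IsTest.pd_supp {φ : Sp d → ℝ} (h : IsTest φ) (i : Fin d) : HasCompactSupport (pd i φ) := by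
  have h1 : HasCompactSupport (fderiv ℝ φ) := h.2.fderiv (𝕜 := ℝ)
  refine h1.mono ?_
  intro x hx
  rw [Function.mem_support] at hx ⊢
  intro h2
  apply hx
  unfold pd
  rw [h2]
  simp

theorem IsTest.memLp {φ : Sp d → ℝ} (h : IsTest φ) : MemLp φ 2 volume :=
  h.1.continuous.memLp_of_hasCompactSupport h.2

theorem IsTest.pd_memLp {φ : Sp d → ℝ} (h : IsTest φ) (i : Fin d) : MemLp (pd i φ) 2 volume :=
  (h.pd_cont i).memLp_of_hasCompactSupport (h.pd_supp i)

theorem IsTest.isH1 {φ : Sp d → ℝ} (h : IsTest φ) : IsH1 φ (fun i => pd i φ) :=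
  ⟨h.memLp, h.pd_memLp, fun _ => φ, fun _ => h, by simp, by simp⟩

/-- Inequalities for test functions on sets pass to the limit: the three quantities. -/
theorem IsH1.approx {u : Sp d → ℝ} {g : Fin d → Sp d → ℝ} (h : IsH1 u g) :
    ∃ φ : ℕ → Sp d → ℝ, (∀ n, IsTest (φ n)) ∧
      (∀ Q : Set (Sp d), Tendsto (fun n => ∫ x in Q, φ n x ^ 2) atTop (𝓝 (∫ x in Q, u x ^ 2))) ∧
      (∀ Q : Set (Sp d), volume Q ≠ ⊤ →
        Tendsto (fun n => ∫ x in Q, φ n x) atTop (𝓝 (∫ x in Q, u x))) ∧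
      (∀ Q : Set (Sp d), Tendsto (fun n => ∫ x in Q, ∑ i, pd i (φ n) x ^ 2) atTop
        (𝓝 (∫ x in Q, ∑ i, g i x ^ 2))) := by
  obtain ⟨hu, hg, φ, hφ, h1, h2⟩ := h
  refine ⟨φ, hφ, fun Q => ?_, fun Q hQ => ?_, fun Q => ?_⟩
  · exact conv_sq (fun n => (hφ n).memLp.restrict Q) (hu.restrict Q)
      (conv_restrict (fun n => (hφ n).memLp) hu h1 Q)
  · have : IsFiniteMeasure (volume.restrict Q) := ⟨by
      rw [Measure.restrict_apply_univ]
      exact hQ.lt_top⟩
    exact conv_int (fun n => (hφ n).memLp.restrict Q) (hu.restrict Q)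
      (conv_restrict (fun n => (hφ n).memLp) hu h1 Q)
  · have h3 : ∀ n, ∫ x in Q, ∑ i, pd i (φ n) x ^ 2 = ∑ i, ∫ x in Q, pd i (φ n) x ^ 2 := fun n =>
      integral_finsetSum _ fun i _ => intsq (((hφ n).pd_memLp i).restrict Q)
    have h4 : ∫ x in Q, ∑ i, g i x ^ 2 = ∑ i, ∫ x in Q, g i x ^ 2 :=
      integral_finsetSum _ fun i _ => intsq ((hg i).restrict Q)
    simp_rw [h3]
    rw [h4]
    exact tendsto_finsetSum _ fun i _ => conv_sq (fun n => ((hφ n).pd_memLp i).restrict Q)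
      ((hg i).restrict Q) (conv_restrict (fun n => (hφ n).pd_memLp i) (hg i) (h2 i) Q)

theorem energy_eq {g : Fin d → Sp d → ℝ} (hg : ∀ i, MemLp (g i) 2 volume) :
    energy g = ∑ i, ∫ x, g i x ^ 2 :=
  integral_finsetSum _ fun i _ => intsq (hg i)

theorem mass_nonneg (u : Sp d → ℝ) : 0 ≤ mass u := integral_nonneg fun _ => sq_nonneg _

theorem energy_nonneg (g : Fin d → Sp d → ℝ) : 0 ≤ energy g :=
  integral_nonneg fun _ => Finset.sum_nonneg fun _ _ => sq_nonneg _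

end Pool.Agent.E8helper23.MO
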