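import Pool.Agent.E8helper23.MO.Dil

/-!
# Finite unions of separated boxes: null sets do not matter
-/

set_option autoImplicit false

namespace Pool.Agent.E8helper23.MO

open MeasureTheory Filter Topology Set
open scoped ENNReal NNReal ContDiff

variable {d : ℕ}

theorem IsTest.mult {ζ : Sp d → ℝ} (h : IsTest ζ) : ∃ M, Mult ζ M := by
  obtain ⟨M0, hM0⟩ := h.2.exists_bound_of_continuous h.1.continuous
  have h1 : ∀ i : Fin d, ∃ M, ∀ x, |pd i ζ x| ≤ M := fun i =>
    (h.pd_supp i).exists_bound_of_continuous (h.pd_cont i)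
  choose M hM using h1
  have hM0' : 0 ≤ M0 := (norm_nonneg _).trans (hM0 0)
  have hM' : ∀ i, 0 ≤ M i := fun i => (abs_nonneg _).trans (hM i 0)
  refine ⟨M0 + ∑ i, M i, h.1, fun x => ?_, fun i x => ?_⟩
  · have := Finset.sum_nonneg fun i (_ : i ∈ Finset.univ) => hM' i
    have h2 := hM0 x
    rw [Real.norm_eq_abs] at h2
    linarith
  · have := Finset.single_le_sum (fun i _ => hM' i) (Finset.mem_univ i)
    linarith [hM i x]

/-- A cutoff function which equals `1` on a box and vanishes outside a slightly larger one. -/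
theorem cutoff {lo hi : Fin d → ℝ} (hlh : ∀ i, lo i < hi i) {κ : ℝ} (hκ : 1 < κ) :
    ∃ ζ : Sp d → ℝ, IsTest ζ ∧ (∀ x, 0 ≤ ζ x ∧ ζ x ≤ 1) ∧ (∀ x ∈ box lo hi, ζ x = 1) ∧
      ∀ x, ζ x ≠ 0 → ∀ i, |x i - (lo i + hi i) / 2| < κ * ((hi i - lo i) / 2) := by
  set f : ContDiffBump (0 : Sp d) := ⟨1, κ, one_pos, hκ⟩ with hf
  set T : Sp d → Sp d := fun x i => (x i - (lo i + hi i) / 2) / ((hi i - lo i) / 2) with hT
  have hr : ∀ i, 0 < (hi i - lo i) / 2 := fun i => by linarith [hlh i]
  have hTc : ContDiff ℝ ∞ T := by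
    refine contDiff_pi.2 fun i => ?_
    exact ((contDiff_apply ℝ ℝ i).sub contDiff_const).div_const _
  have hκ0 : 0 < κ := by linarith
  have hsupp : ∀ x, f (T x) ≠ 0 → ∀ i, |x i - (lo i + hi i) / 2| < κ * ((hi i - lo i) / 2) := by
    intro x hx i
    have h1 : T x ∈ Function.support f := hx
    rw [f.support_eq, mem_ball_zero_iff] at h1
    have h2 : f.rOut = κ := rfl
    rw [h2, pi_norm_lt_iff hκ0] at h1
    have h3 := h1 i
    rw [hT, Real.norm_eq_abs, abs_div, abs_of_pos (hr i), div_lt_iff₀ (hr i)] at h3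
    exact h3
  refine ⟨fun x => f (T x), ⟨f.contDiff.comp hTc, ?_⟩, fun x => ⟨f.nonneg, f.le_one⟩,
    fun x hx => ?_, hsupp⟩
  · refine HasCompactSupport.of_support_subset_isCompact
      (K := Set.pi univ fun i => Icc ((lo i + hi i) / 2 - κ * ((hi i - lo i) / 2))
        ((lo i + hi i) / 2 + κ * ((hi i - lo i) / 2))) (isCompact_univ_pi fun i => isCompact_Icc) ?_
    intro x hx
    rw [mem_univ_pi]
    intro i
    have h1 := abs_lt.1 (hsupp x hx i)
    constructor <;> linarith [h1.1, h1.2]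
  · refine f.one_of_mem_closedBall ?_
    rw [mem_closedBall_zero_iff]
    have h2 : f.rIn = 1 := rfl
    rw [h2, pi_norm_le_iff_of_nonneg zero_le_one]
    intro i
    have h3 := (mem_box.1 hx) i
    rw [hT, Real.norm_eq_abs, abs_div, abs_of_pos (hr i), div_le_one (hr i), abs_le]
    constructor <;> linarith [h3.1, h3.2]

theorem pd_zero_of_const {ζ : Sp d → ℝ} {c : ℝ} {U : Set (Sp d)} (hU : IsOpen U)
    (h : ∀ x ∈ U, ζ x = c) (i : Fin d) {x : Sp d} (hx : x ∈ U) : pd i ζ x = 0 := by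
  unfold pd
  have h1 : ζ =ᶠ[𝓝 x] fun _ => c := by
    filter_upwards [hU.mem_nhds hx] with y hy
    exact h y hy
  rw [h1.fderiv_eq]
  simp

theorem stab_aux {ι : Type} [Fintype ι] {lo hi : ι → Fin d → ℝ}
    (hlh : ∀ j i, lo j i < hi j i) {κ : ℝ} (hκ : 1 < κ) (e : Fin d)
    (hsep : ∀ j j', j ≠ j' →
      (lo j e + hi j e) / 2 + κ * ((hi j e - lo j e) / 2) ≤
        (lo j' e + hi j' e) / 2 - κ * ((hi j' e - lo j' e) / 2) ∨
      (lo j' e + hi j' e) / 2 + κ * ((hi j' e - lo j' e) / 2) ≤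
        (lo j e + hi j e) / 2 - κ * ((hi j e - lo j e) / 2))
    {u : Sp d → ℝ} {g : Fin d → Sp d → ℝ} (hu : IsH1 u g) (hm : mass u ≠ 0)
    (h0 : ∀ᵐ x, x ∉ (⋃ j, box (lo j) (hi j)) → u x = 0) :
    lambda1 (⋃ j, box (lo j) (hi j)) ≤ ENNReal.ofReal (κ ^ 2 * (energy g / mass u)) := by
  classical
  have hκ0 : 0 < κ := by linarith
  choose ζ hζT hζ1 hζb hζs using fun j => cutoff (hlh j) hκ
  choose M hM using fun j => (hζT j).mult
  have hm0 : 0 < mass u := lt_of_le_of_ne (mass_nonneg u) (Ne.symm hm)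
  -- at most one cutoff function is nonzero at each point
  have hone : ∀ j j' x, j ≠ j' → ζ j x ≠ 0 → ζ j' x = 0 := by
    intro j j' x hjj h1
    by_contra h2
    have h3 := abs_lt.1 (hζs j x h1 e)
    have h4 := abs_lt.1 (hζs j' x h2 e)
    rcases hsep j j' hjj with h | h <;> linarith [h3.1, h3.2, h4.1, h4.2]
  have hsum1 : ∀ x, ∑ j, ζ j x ^ 2 ≤ 1 := by
    intro x
    by_cases h : ∃ j, ζ j x ≠ 0
    · obtain ⟨j, hj⟩ := h
      rw [Finset.sum_eq_single j]
      · have := hζ1 j x
        nlinarith [this.1, this.2]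
      · intro j' _ hj'
        rw [hone j j' x (Ne.symm hj') hj]
        norm_num
      · simp
    · push Not at h
      simp [h]
  have hsum2 : ∀ x ∈ (⋃ j, box (lo j) (hi j)), ∑ j, ζ j x ^ 2 = 1 ∧ ∀ j i, pd i (ζ j) x = 0 := by
    intro x hx
    obtain ⟨j, hj⟩ := mem_iUnion.1 hx
    have h1 : ζ j x = 1 := hζb j x hj
    constructor
    · rw [Finset.sum_eq_single j]
      · rw [h1]
        norm_num
      · intro j' _ hj'
        rw [hone j j' x (Ne.symm hj') (by rw [h1]; norm_num)]
        norm_num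
      · simp
    · intro j' i
      by_cases hjj : j' = j
      · subst hjj
        exact pd_zero_of_const (box_open _ _) (hζb j') i hj
      · refine pd_zero_of_const (c := 0) (box_open _ _) (fun y hy => ?_) i hj
        exact hone j j' y (Ne.symm hjj) (by rw [hζb j y hy]; norm_num)
  set v : ι → Sp d → ℝ := fun j x => ζ j x * u x with hv
  set G : ι → Fin d → Sp d → ℝ := fun j i x => ζ j x * g i x + u x * pd i (ζ j) x with hG
  have hmass : ∑ j, mass (v j) = mass u := by
    unfold mass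
    rw [← integral_finsetSum _ fun j _ => intsq ((hu.mul (hM j)).1)]
    refine integral_congr_ae ?_
    filter_upwards [h0] with x hx
    by_cases hxD : x ∈ (⋃ j, box (lo j) (hi j))
    · have h1 := (hsum2 x hxD).1
      simp only [mul_pow]
      rw [← Finset.sum_mul, h1, one_mul]
    · simp [hx hxD]
  have hen : ∑ j, energy (G j) ≤ energy g := by
    unfold energy
    have igs : ∀ {g : Fin d → Sp d → ℝ}, (∀ i, MemLp (g i) 2 volume) →
      Integrable (fun x => ∑ i, g i x ^ 2) := fun hg => integrable_finsetSum _ fun i _ => intsq (hg i)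
    rw [← integral_finsetSum _ fun j _ => igs ((hu.mul (hM j)).2.1)]
    refine integral_mono_ae (integrable_finsetSum _ fun j _ => igs ((hu.mul (hM j)).2.1))
      (igs hu.2.1) ?_
    filter_upwards [h0] with x hx
    have h1 : ∀ j i, G j i x = ζ j x * g i x := by
      intro j i
      by_cases hxD : x ∈ (⋃ j, box (lo j) (hi j))
      · simp only [hG, (hsum2 x hxD).2 j i, mul_zero, add_zero]
      · simp only [hG, hx hxD, zero_mul, add_zero]
    change ∑ j, ∑ i, G j i x ^ 2 ≤ ∑ i, g i x ^ 2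
    simp_rw [h1, mul_pow, ← Finset.mul_sum]
    rw [← Finset.sum_mul]
    have h2 : 0 ≤ ∑ i, g i x ^ 2 := Finset.sum_nonneg fun i _ => sq_nonneg _
    calc _ ≤ 1 * ∑ i, g i x ^ 2 := mul_le_mul_of_nonneg_right (hsum1 x) h2
      _ = _ := one_mul _
  obtain ⟨j, hj1, hj2⟩ : ∃ j, mass (v j) ≠ 0 ∧ energy (G j) / mass (v j) ≤ energy g / mass u := by
    by_contra hcon
    push Not at hcon
    have t1 : ∀ j, energy g / mass u * mass (v j) ≤ energy (G j) ∧
        (mass (v j) ≠ 0 → energy g / mass u * mass (v j) < energy (G j)) := by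
      intro j
      by_cases h : mass (v j) = 0
      · rw [h]
        exact ⟨by simpa using energy_nonneg _, fun h => absurd rfl h⟩
      · have h5 : 0 < mass (v j) := lt_of_le_of_ne (mass_nonneg _) (Ne.symm h)
        have h6 := (lt_div_iff₀ h5).1 (hcon j h)
        exact ⟨h6.le, fun _ => h6⟩
    have t2 : ∃ j, mass (v j) ≠ 0 := by
      by_contra h
      push Not at h
      rw [Finset.sum_eq_zero fun j _ => h j] at hmass
      exact hm hmass.symm
    obtain ⟨j, hj⟩ := t2
    have t3 : ∑ j, energy g / mass u * mass (v j) < ∑ j, energy (G j) :=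
      Finset.sum_lt_sum (fun j _ => (t1 j).1) ⟨j, Finset.mem_univ _, (t1 j).2 hj⟩
    rw [← Finset.mul_sum, hmass, div_mul_cancel₀ _ hm] at t3
    linarith
  obtain ⟨φ, hφT, hφs, hφm, hφe⟩ := mul_approx' hu (hM j)
  -- dilation towards the centre of the box
  set z : Sp d := fun i => (lo j i + hi j i) / 2 with hz
  set w : Sp d := (1 - κ) • z with hw
  have hψ : ∀ n, IsH10 (⋃ j, box (lo j) (hi j)) (dil κ w (φ n))
      (fun i => pd i (dil κ w (φ n))) := by
    intro n
    refine ((hφT n).dil hκ0 w).isH10 fun x hx => mem_iUnion.2 ⟨j, mem_box.2 fun i => ?_⟩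
    have h1 := hζs j _ (hφs n _ hx) i
    have h2 : (κ • x + w) i - (lo j i + hi j i) / 2 = κ * (x i - (lo j i + hi j i) / 2) := by
      simp only [hw, hz, Pi.add_apply, Pi.smul_apply, smul_eq_mul]
      ring
    rw [h2, abs_mul, abs_of_pos hκ0] at h1
    have h3 := abs_lt.1 (lt_of_mul_lt_mul_left h1 hκ0.le)
    constructor <;> linarith [h3.1, h3.2]
  have hlim : Tendsto (fun n => energy (fun i => pd i (φ n)) / mass (φ n)) atTop
      (𝓝 (energy (G j) / mass (v j))) := hφe.div hφm hj1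
  have hlim2 : Tendsto (fun n => ENNReal.ofReal (κ ^ 2 *
      (energy (fun i => pd i (φ n)) / mass (φ n)))) atTop
      (𝓝 (ENNReal.ofReal (κ ^ 2 * (energy (G j) / mass (v j))))) :=
    (ENNReal.continuous_ofReal.tendsto _).comp (hlim.const_mul _)
  have hev : ∀ᶠ n in atTop, lambda1 (⋃ j, box (lo j) (hi j)) ≤ ENNReal.ofReal (κ ^ 2 *
      (energy (fun i => pd i (φ n)) / mass (φ n))) := by
    filter_upwards [hφm.eventually_ne hj1] with n hn
    have h1 := lambda1_le (hψ n) (by
      rw [mass_dil hκ0]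
      have : (κ ^ d)⁻¹ ≠ 0 := by positivity
      exact mul_ne_zero this hn)
    rw [ratio_dil (hφT n) hκ0] at h1
    exact h1
  refine (ge_of_tendsto hlim2 hev).trans (ENNReal.ofReal_le_ofReal ?_)
  exact mul_le_mul_of_nonneg_left hj2 (by positivity)

/-- For a finite union `D` of separated boxes the addition of null sets does not decrease the first
eigenvalue. -/
theorem stab {ι : Type} [Fintype ι] {lo hi : ι → Fin d → ℝ}
    (hlh : ∀ j i, lo j i < hi j i) (e : Fin d)
    (hsep : ∀ j j', j ≠ j' → hi j e < lo j' e ∨ hi j' e < lo j e) {Ω : Set (Sp d)}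
    (hΩ : volume (Ω \ ⋃ j, box (lo j) (hi j)) = 0) :
    lambda1 (⋃ j, box (lo j) (hi j)) ≤ lambda1 Ω := by
  refine le_lambda1 fun u g hu hm => ?_
  have h0 : ∀ᵐ x, x ∉ (⋃ j, box (lo j) (hi j)) → u x = 0 := by
    filter_upwards [hu.ae_zero, measure_eq_zero_iff_ae_notMem.1 hΩ] with x h1 h2 h3
    exact h1 fun h4 => h2 ⟨h4, h3⟩
  have hev : ∀ᶠ κ : ℝ in 𝓝[>] 1, lambda1 (⋃ j, box (lo j) (hi j)) ≤
      ENNReal.ofReal (κ ^ 2 * (energy g / mass u)) := by
    have h1 : ∀ᶠ κ : ℝ in 𝓝 1, ∀ j j', j ≠ j' →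
      (lo j e + hi j e) / 2 + κ * ((hi j e - lo j e) / 2) ≤
        (lo j' e + hi j' e) / 2 - κ * ((hi j' e - lo j' e) / 2) ∨
      (lo j' e + hi j' e) / 2 + κ * ((hi j' e - lo j' e) / 2) ≤
        (lo j e + hi j e) / 2 - κ * ((hi j e - lo j e) / 2) := by
      rw [eventually_all]
      intro j
      rw [eventually_all]
      intro j'
      by_cases hjj : j = j'
      · exact Eventually.of_forall fun κ h => absurd hjj h
      rcases hsep j j' hjj with h | h
      · have c1 : Continuous fun κ : ℝ => (lo j e + hi j e) / 2 + κ * ((hi j e - lo j e) / 2) := by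
          fun_prop
        have c2 : Continuous fun κ : ℝ =>
          (lo j' e + hi j' e) / 2 - κ * ((hi j' e - lo j' e) / 2) := by fun_prop
        have h2 := (c1.tendsto 1).eventually_lt (c2.tendsto 1) (by linarith)
        filter_upwards [h2] with κ hκ _
        exact Or.inl hκ.le
      · have c1 : Continuous fun κ : ℝ =>
          (lo j' e + hi j' e) / 2 + κ * ((hi j' e - lo j' e) / 2) := by fun_prop
        have c2 : Continuous fun κ : ℝ =>
          (lo j e + hi j e) / 2 - κ * ((hi j e - lo j e) / 2) := by fun_prop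
        have h2 := (c1.tendsto 1).eventually_lt (c2.tendsto 1) (by linarith)
        filter_upwards [h2] with κ hκ _
        exact Or.inr hκ.le
    filter_upwards [h1.filter_mono nhdsWithin_le_nhds, self_mem_nhdsWithin] with κ h2 h3
    exact stab_aux hlh h3 e h2 hu.1 hm h0
  have hlim : Tendsto (fun κ : ℝ => ENNReal.ofReal (κ ^ 2 * (energy g / mass u))) (𝓝[>] 1)
      (𝓝 (ENNReal.ofReal (1 ^ 2 * (energy g / mass u)))) := by
    have : Continuous fun κ : ℝ => ENNReal.ofReal (κ ^ 2 * (energy g / mass u)) :=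
      ENNReal.continuous_ofReal.comp (by fun_prop)
    exact (this.tendsto 1).mono_left nhdsWithin_le_nhds
  have h5 := ge_of_tendsto hlim hev
  rwa [one_pow, one_mul] at h5

end Pool.Agent.E8helper23.MO
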