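import Pool.Agent.E8helper23.MO.Ims
import Pool.Agent.E8helper23.MO.Stab
import Pool.Agent.E8helper23.MO.Descent
import Pool.Agent.E8helper23.MO.Geo

/-!
# The counterexample
-/

set_option autoImplicit false

namespace Pool.Agent.E8helper23.MO

open MeasureTheory Filter Topology Set
open scoped ENNReal NNReal ContDiff

theorem exN (X Y : ℝ) (hY : 0 < Y) : ∃ N : ℕ, 0 < N ∧ X < Y * (N : ℝ) ^ 2 := by
  obtain ⟨N, hN⟩ := exists_nat_gt (X / Y)
  refine ⟨N + 1, by omega, ?_⟩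
  rw [div_lt_iff₀ hY] at hN
  push_cast
  have h1 : (N : ℝ) ≤ ((N : ℝ) + 1) ^ 2 := by
    have : (0 : ℝ) ≤ N := by positivity
    nlinarith
  nlinarith [mul_le_mul_of_nonneg_right h1 hY.le]

variable {n : ℕ}

theorem main (n : ℕ) : ∃ D : Set (Sp (n + 1)), IsOpen D ∧ Bornology.IsBounded D ∧
    volume D ≠ ⊤ ∧ (∃ m : ℝ≥0, IsOptimal D m D) ∧
    ∃ m₀ : ℝ≥0, volume D < m₀ ∧ ∀ Ω₀, IsOptimal D m₀ Ω₀ →
      ∃ m' : ℝ≥0, m₀ < m' ∧ ∀ Ω', IsOptimal D m' Ω' → volume (Ω₀ \ Ω') ≠ 0 := by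
  obtain ⟨C, hC, hcube⟩ := cube_bound (n + 1)
  have hd : 0 < n + 1 := Nat.succ_pos n
  set K : ℝ := ((n + 1 : ℕ) : ℝ) * 2 ^ (n + 1) with hK
  have hK0 : 0 < K := by positivity
  set L : ℝ := 1 / (2 * K * 4 ^ 2) with hL
  have hL0 : 0 < L := by positivity
  -- the size of the second box
  obtain ⟨b, hb0, hb⟩ := exN C (16 * L) (by positivity)
  have hb0' : (0 : ℝ) < b := by exact_mod_cast hb0
  have hb1 : (1 : ℝ) ≤ b := by exact_mod_cast hb0
  set e₀ : ℝ := C / (4 * b) ^ 2 with he₀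
  have he₀0 : 0 ≤ e₀ := by positivity
  have he₀L : e₀ < L := by
    rw [he₀, div_lt_iff₀ (by positivity)]
    linarith
  set h₂ : ℝ := 1 / (4 * b ^ (n + 1)) with hh₂
  have hh₂0 : 0 < h₂ := by positivity
  have hbp : (1 : ℝ) ≤ b ^ (n + 1) := one_le_pow₀ hb1
  have hh₂1 : h₂ ≤ 1 / 4 := by
    rw [hh₂]
    exact one_div_le_one_div_of_le (by norm_num) (by linarith)
  set T : ℝ := h₂ * (4 * b) ^ (n + 1) with hT
  have hT' : T = 4 ^ (n + 1) / 4 := by
    rw [hT, hh₂, mul_pow]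
    field_simp
  -- the second period
  obtain ⟨N, hN0, hN⟩ := exN (max C L) (h₂ / 2 / K) (by positivity)
  have hN0' : (0 : ℝ) < N := by exact_mod_cast hN0
  have hN1' : (1 : ℝ) ≤ N := by exact_mod_cast hN0
  set p₂ : ℝ := 1 / N with hp₂
  have hp₂0 : 0 < p₂ := by positivity
  have hp₂1 : p₂ ≤ 1 := by
    rw [hp₂, div_le_one hN0']
    exact hN1'
  set L₂ : ℝ := h₂ / 2 / (K * p₂ ^ 2) with hL₂
  have hL₂' : L₂ = h₂ / 2 / K * (N : ℝ) ^ 2 := by
    rw [hL₂, hp₂]
    field_simp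
  have hCL₂ : C < L₂ := by
    rw [hL₂']
    exact (le_max_left _ _).trans_lt hN
  have hLL₂ : L < L₂ := by
    rw [hL₂']
    exact (le_max_right _ _).trans_lt hN
  set h₁ : ℝ := h₂ / 2 * p₂ ^ (n + 1) with hh₁
  have hh₁0 : 0 < h₁ := by positivity
  have hp₂p : p₂ ^ (n + 1) ≤ 1 := pow_le_one₀ hp₂0.le hp₂1
  have hh₁1 : h₁ ≤ 1 / 4 := by
    have : h₂ / 2 * p₂ ^ (n + 1) ≤ h₂ / 2 * 1 := mul_le_mul_of_nonneg_left hp₂p (by positivity)
    linarith
  -- the first period
  obtain ⟨N', hN'0, hN'⟩ := exN C (h₁ / 2 / K) (by positivity)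
  have hN'0' : (0 : ℝ) < N' := by exact_mod_cast hN'0
  set p₁ : ℝ := 1 / N' with hp₁
  have hp₁0 : 0 < p₁ := by positivity
  set L₁ : ℝ := h₁ / 2 / (K * p₁ ^ 2) with hL₁
  have hL₁' : L₁ = h₁ / 2 / K * (N' : ℝ) ^ 2 := by
    rw [hL₁, hp₁]
    field_simp
  have hCL₁ : C < L₁ := by
    rw [hL₁']
    exact hN'
  set r : ℝ := h₁ / 2 * p₁ ^ (n + 1) with hr
  have hr0 : 0 < r := by positivity
  obtain ⟨J, hJ⟩ := exists_nat_gt (T / r)
  rw [div_lt_iff₀ hr0] at hJ
  -- the error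
  obtain ⟨δ, hδ0, hδ1, hδ2, hδ3⟩ : ∃ δ : ℝ, 0 < δ ∧ C + δ < L₁ ∧ C + δ < L₂ ∧
      e₀ + (J + 1) * δ < L := by
    refine ⟨min ((L₁ - C) / 2) (min ((L₂ - C) / 2) ((L - e₀) / (2 * (J + 1)))), ?_, ?_, ?_, ?_⟩
    · refine lt_min (by linarith) (lt_min (by linarith) ?_)
      exact div_pos (by linarith) (by positivity)
    · have := min_le_left ((L₁ - C) / 2) (min ((L₂ - C) / 2) ((L - e₀) / (2 * (J + 1))))
      linarith
    · have := (min_le_right ((L₁ - C) / 2) (min ((L₂ - C) / 2) ((L - e₀) / (2 * (J + 1))))).trans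
        (min_le_left _ _)
      linarith
    · have h1 := (min_le_right ((L₁ - C) / 2)
        (min ((L₂ - C) / 2) ((L - e₀) / (2 * (J + 1))))).trans (min_le_right _ _)
      have h2 : (0 : ℝ) < J + 1 := by positivity
      have h3 := mul_le_mul_of_nonneg_left h1 h2.le
      have h4 : ((J : ℝ) + 1) * ((L - e₀) / (2 * (J + 1))) = (L - e₀) / 2 := by
        field_simp
      rw [h4] at h3
      linarith
  obtain ⟨W₀, hW₀, hcut⟩ := cut n hδ0
  obtain ⟨W, hW⟩ := exists_nat_ge W₀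
  have hW0 : (0 : ℝ) < W := hW₀.trans_le hW
  -- the set `D`
  set N₂ : ℕ := 4 * b * N with hN₂
  have hNp₂ : (N₂ : ℝ) * p₂ = 4 * b := by
    rw [hN₂, hp₂]
    push_cast
    field_simp
  have hNp₁ : (N' : ℝ) * p₁ = 1 := by
    rw [hp₁]
    field_simp
  set D₁ : Set (Sp (n + 1)) := PB n (-1) p₁ h₁ 1 N' with hD₁
  set D₂ : Set (Sp (n + 1)) := PB n (W + W) p₂ h₂ (4 * b) N₂ with hD₂
  set cb₁ : Set (Sp (n + 1)) := box (corner n (-1)) (fun i => corner n (-1) i + 1) with hcb₁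
  set cb₂ : Set (Sp (n + 1)) := box (corner n (W + W)) (fun i => corner n (W + W) i + 4 * b)
    with hcb₂
  have hsub₁ : D₁ ⊆ cb₁ := PB_sub hp₁0 hh₁0.le hNp₁
  have hsub₂ : D₂ ⊆ cb₂ := PB_sub hp₂0 hh₂0.le hNp₂
  have hx₁ : ∀ x ∈ D₁, x 0 < 0 := fun x hx => by
    have := (mem_cube.1 (hsub₁ hx)).1.2
    linarith
  have hx₂ : ∀ x ∈ D₂, (W : ℝ) + W < x 0 := fun x hx => (mem_cube.1 (hsub₂ hx)).1.1
  have hcv₁ : volume cb₁ = ENNReal.ofReal 1 := by
    rw [hcb₁, cube_vol zero_le_one, one_pow]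
  have hcv₂ : volume cb₂ = ENNReal.ofReal ((4 * b) ^ (n + 1)) := by
    rw [hcb₂, cube_vol (by positivity)]
  set ll : Fin N' ⊕ Fin N₂ → Fin (n + 1) → ℝ :=
    Sum.elim (fun j => lo n (-1) p₁ j) (fun j => lo n (W + W) p₂ j) with hll
  set uu : Fin N' ⊕ Fin N₂ → Fin (n + 1) → ℝ :=
    Sum.elim (fun j => hi n (-1) p₁ h₁ 1 j) (fun j => hi n (W + W) p₂ h₂ (4 * b) j) with huu
  set D : Set (Sp (n + 1)) := ⋃ j, box (ll j) (uu j) with hD
  have hDD : D = D₁ ∪ D₂ := by
    rw [hD, iUnion_sum]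
    rfl
  have hDo : IsOpen D := isOpen_iUnion fun j => box_open _ _
  have hDv : volume D ≤ ENNReal.ofReal 1 + ENNReal.ofReal ((4 * b) ^ (n + 1)) := by
    rw [hDD, ← hcv₁, ← hcv₂]
    exact (measure_union_le _ _).trans (add_le_add (measure_mono hsub₁) (measure_mono hsub₂))
  have hDf : volume D ≠ ⊤ := (hDv.trans_lt
    (ENNReal.add_lt_top.2 ⟨ENNReal.ofReal_lt_top, ENNReal.ofReal_lt_top⟩)).ne
  have hbd : Bornology.IsBounded D := by
    have hb : ∀ l u : Fin (n + 1) → ℝ, Bornology.IsBounded (box l u) := fun l u =>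
      Bornology.IsBounded.pi fun i => Metric.isBounded_Ioo _ _
    rw [hDD]
    exact ((hb _ _).subset hsub₁).union ((hb _ _).subset hsub₂)
  refine ⟨D, hDo, hbd, hDf, ⟨(volume D).toNNReal, IsOpen.quasiOpen hDo, Subset.rfl,
    (ENNReal.coe_toNNReal hDf).symm, fun Ω' hΩ' hDΩ' hv => ?_⟩,
    (volume D + ENNReal.ofReal h₁).toNNReal, ?_, fun Ω₀ hΩ₀ => ?_⟩
  · -- `D` is optimal at its own measure
    rw [ENNReal.coe_toNNReal hDf] at hv
    refine stab ?_ (0 : Fin (n + 1)) ?_ ?_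
    · rintro (j | j) i
      · simp only [hll, huu, Sum.elim_inl, lo, hi]
        split_ifs
        · have : 0 < (1 - h₁) * p₁ := mul_pos (by linarith) hp₁0
          linarith
        · exact one_pos
      · simp only [hll, huu, Sum.elim_inr, lo, hi]
        split_ifs
        · have : 0 < (1 - h₂) * p₂ := mul_pos (by linarith) hp₂0
          linarith
        · positivity
    · have gen : ∀ (a p h : ℝ) (j j' : ℕ), 0 < p → 0 < h → j < j' →
          a + j * p + (1 - h) * p < a + j' * p := by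
        intro a p h j j' hp hh hjj
        have h1 : (j : ℝ) + 1 ≤ j' := by exact_mod_cast hjj
        have h2 : ((j : ℝ) + 1) * p ≤ j' * p := mul_le_mul_of_nonneg_right h1 hp.le
        nlinarith [mul_pos hh hp]
      rintro (j | j) (j' | j') hjj
      · simp only [hll, huu, Sum.elim_inl, lo, hi, if_true]
        have hne : (j : ℕ) ≠ j' := fun h => hjj (by rw [Fin.ext h])
        rcases lt_or_gt_of_ne hne with h | h
        · exact Or.inl (gen _ _ _ _ _ hp₁0 hh₁0 h)
        · exact Or.inr (gen _ _ _ _ _ hp₁0 hh₁0 h)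
      · left
        simp only [hll, huu, Sum.elim_inl, Sum.elim_inr, lo, hi, if_true]
        have h1 : ((j : ℕ) : ℝ) + 1 ≤ N' := by exact_mod_cast j.2
        have h2 : (((j : ℕ) : ℝ) + 1) * p₁ ≤ N' * p₁ := mul_le_mul_of_nonneg_right h1 hp₁0.le
        have h3 : 0 ≤ ((j' : ℕ) : ℝ) * p₂ := by positivity
        nlinarith [mul_pos hh₁0 hp₁0]
      · right
        simp only [hll, huu, Sum.elim_inl, Sum.elim_inr, lo, hi, if_true]
        have h1 : ((j' : ℕ) : ℝ) + 1 ≤ N' := by exact_mod_cast j'.2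
        have h2 : (((j' : ℕ) : ℝ) + 1) * p₁ ≤ N' * p₁ := mul_le_mul_of_nonneg_right h1 hp₁0.le
        have h3 : 0 ≤ ((j : ℕ) : ℝ) * p₂ := by positivity
        nlinarith [mul_pos hh₁0 hp₁0]
      · simp only [hll, huu, Sum.elim_inr, lo, hi, if_true]
        have hne : (j : ℕ) ≠ j' := fun h => hjj (by rw [Fin.ext h])
        rcases lt_or_gt_of_ne hne with h | h
        · exact Or.inl (gen _ _ _ _ _ hp₂0 hh₂0 h)
        · exact Or.inr (gen _ _ _ _ _ hp₂0 hh₂0 h)
    · rw [measure_sdiff hDΩ' hDo.measurableSet.nullMeasurableSet hDf]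
      exact tsub_eq_zero_of_le hv
  · rw [ENNReal.coe_toNNReal (by simp [hDf])]
    exact ENNReal.lt_add_right hDf (by simpa using hh₁0)
  · refine descent (s := h₁) (T := T) (r := r) (L := L) (L₁ := L₁) (L₂ := L₂) (δ := δ) (C := C)
      (e₀ := e₀) (J := J) hDo hDf hW0 hh₁0 hδ0.le hC.le he₀0 ?_ hδ1 hδ2 hLL₂.le hδ3
      (by linarith) hr0.le (fun a Ω => hcut W hW a Ω) ?_ ?_ ?_ ?_ ?_
      (ENNReal.coe_toNNReal (by simp [hDf])) hΩ₀
    · rw [hT']
      have : (1 : ℝ) ≤ 4 ^ n := one_le_pow₀ (by norm_num)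
      rw [pow_succ]
      linarith
    · -- (A)
      intro Ω hΩ
      have h1 := crude_fk hd (Ω := Ω ∩ {x | x 0 < (W : ℝ) + W}) (l := 4) (by norm_num) ?_
      · exact h1
      calc volume (Ω ∩ {x | x 0 < (W : ℝ) + W}) ≤ volume (D₁ ∪ (Ω \ D)) := measure_mono (by
            rintro x ⟨hx1, hx3⟩
            by_cases hx : x ∈ D
            · rw [hDD] at hx
              rcases hx with hx | hx
              · exact Or.inl hx
              · have h4 := hx₂ x hx
                have h5 : x 0 < (W : ℝ) + W := hx3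
                linarith
            · exact Or.inr ⟨hx1, hx⟩)
        _ ≤ volume D₁ + volume (Ω \ D) := measure_union_le _ _
        _ ≤ ENNReal.ofReal 1 + ENNReal.ofReal T :=
          add_le_add ((measure_mono hsub₁).trans hcv₁.le) hΩ
        _ = ENNReal.ofReal (1 + T) := by
          rw [← ENNReal.ofReal_add zero_le_one (by positivity)]
        _ ≤ ENNReal.ofReal (4 ^ (n + 1) / 2) := by
          refine ENNReal.ofReal_le_ofReal ?_
          rw [hT']
          have : (1 : ℝ) ≤ 4 ^ n := one_le_pow₀ (by norm_num)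
          rw [pow_succ]
          linarith
    · -- (B)
      intro Ω hΩ
      refine lower_grid' hd (D := D₂) (η := h₂ / 2) hp₂0 (by positivity) (by linarith) (fun k => ?_) ?_
      · have h1 := PB_cell (n := n) (a := (W : ℝ) + W) (p := p₂) (h := h₂) (R := 4 * b) (N := N₂)
          (k₀ := (W + W : ℕ) * N) hp₂0 hh₂0.le (by linarith) (by
            rw [hp₂]
            push_cast
            field_simp) k
        refine h1.trans (le_of_eq ?_)
        congr 1
        ring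
      · refine (measure_mono ?_).trans hΩ
        rintro x ⟨⟨hx1, hx2⟩, hx3⟩
        refine ⟨hx1, fun hx => ?_⟩
        rw [hDD] at hx
        rcases hx with hx | hx
        · have h4 := hx₁ x hx
          have h5 : 0 < x 0 := hx2
          linarith
        · exact hx3 hx
    · -- (C)
      intro Ω hΩ
      refine lower_grid' hd (D := D₁) (η := h₁ / 2) hp₁0 (by positivity) (by linarith) (fun k => ?_) ?_
      · have h1 := PB_cell (n := n) (a := -1) (p := p₁) (h := h₁) (R := 1) (N := N')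
          (k₀ := -(N' : ℤ)) hp₁0 hh₁0.le (by linarith) (by
            rw [hp₁]
            push_cast
            field_simp) k
        refine h1.trans (le_of_eq ?_)
        congr 1
        ring
      · refine (measure_mono ?_).trans hΩ
        rintro x ⟨⟨hx1, hx2⟩, hx3⟩
        refine ⟨⟨hx1, fun hx => ?_⟩, hx2⟩
        rw [hDD] at hx
        rcases hx with hx | hx
        · exact hx3 hx
        · have h4 := hx₂ x hx
          have h5 : x 0 < (W : ℝ) := hx2
          linarith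
    · -- (U₁)
      refine ⟨D ∪ cb₁, (IsOpen.quasiOpen hDo).union_open (box_open _ _), subset_union_left, ?_, ?_⟩
      · have h1 := holes_vol (n := n) (a := -1) (h := h₁) hp₁0 hh₁0.le hNp₁
        rw [one_pow, mul_one] at h1
        refine (measure_mono ?_).trans h1
        rintro x ⟨hx1 | hx1, hx2⟩
        · exact absurd hx1 hx2
        · refine ⟨hx1, fun hx => hx2 ?_⟩
          rw [hDD]
          exact Or.inl hx
      · have h1 := hcube 1 one_pos (corner n (-1)) (D ∪ cb₁) subset_union_right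
        simpa using h1
    · -- (U₂)
      refine ⟨D ∪ cb₂, (IsOpen.quasiOpen hDo).union_open (box_open _ _), subset_union_left, ?_, ?_⟩
      · have h1 := holes_vol (n := n) (a := (W : ℝ) + W) (h := h₂) hp₂0 hh₂0.le hNp₂
        refine (measure_mono ?_).trans h1
        rintro x ⟨hx1 | hx1, hx2⟩
        · exact absurd hx1 hx2
        · refine ⟨hx1, fun hx => hx2 ?_⟩
          rw [hDD]
          exact Or.inr hx
      · exact hcube (4 * b) (by positivity) (corner n (W + W)) (D ∪ cb₂) subset_union_right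

end Pool.Agent.E8helper23.MO
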