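import Pool.Agent.E8helper23.MO.L2

set_option autoImplicit false

namespace Pool.Agent.E8helper23.MO

open MeasureTheory Filter Topology Set
open scoped ENNReal NNReal ContDiff

variable {d : ℕ}

theorem clm_eq_sum (L : Sp d →L[ℝ] ℝ) (v : Sp d) : L v = ∑ i, v i * L (Pi.single i 1) := by
  conv_lhs => rw [← Finset.univ_sum_single v]
  rw [map_sum]
  refine Finset.sum_congr rfl fun i _ => ?_
  have h : (Pi.single i (v i) : Sp d) = v i • (Pi.single i 1 : Sp d) := by
    rw [← Pi.single_smul, smul_eq_mul, mul_one]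
  rw [h, map_smul, smul_eq_mul]

/-- `|∇ φ|²` -/
noncomputable def gsq (φ : Sp d → ℝ) (z : Sp d) : ℝ := ∑ i, pd i φ z ^ 2

theorem gsq_nonneg (φ : Sp d → ℝ) (z : Sp d) : 0 ≤ gsq φ z := Finset.sum_nonneg fun _ _ => sq_nonneg _

theorem gsq_cont {φ : Sp d → ℝ} (h : IsTest φ) : Continuous (gsq φ) :=
  continuous_finsetSum _ fun i _ => (h.pd_cont i).pow 2

theorem path_ineq {φ : Sp d → ℝ} (hφ : IsTest φ) (x y : Sp d) (l : ℝ)
    (hxy : ∀ i, |x i - y i| ≤ l) :
    (φ x - φ y) ^ 2 ≤ d * l ^ 2 * ∫ t in (0 : ℝ)..1, gsq φ (y + t • (x - y)) := by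
  have hl : ∀ i : Fin d, (x i - y i) ^ 2 ≤ l ^ 2 := fun i => by
    rw [← sq_abs]
    exact pow_le_pow_left₀ (abs_nonneg _) (hxy i) 2
  set p : ℝ → Sp d := fun t => y + t • (x - y) with hp
  set k : ℝ → ℝ := fun t => ∑ i, (x - y) i * pd i φ (p t) with hk
  have hpc : Continuous p := by fun_prop
  have hkc : Continuous k := continuous_finsetSum _ fun i _ =>
    continuous_const.mul ((hφ.pd_cont i).comp hpc)
  have hder : ∀ t, HasDerivAt (fun t => φ (p t)) (k t) t := by
    intro t
    have h1 : HasDerivAt p (x - y) t := by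
      have h2 : HasDerivAt (fun t : ℝ => t • (x - y)) ((1 : ℝ) • (x - y)) t :=
        (hasDerivAt_id t).smul_const (x - y)
      rw [one_smul] at h2
      exact h2.const_add y
    have h3 : DifferentiableAt ℝ φ (p t) := (hφ.1.differentiable (by simp)) _
    have h4 := h3.hasFDerivAt.comp_hasDerivAt t h1
    rw [clm_eq_sum] at h4
    exact h4
  have hint : ∫ t in (0 : ℝ)..1, k t = φ x - φ y := by
    rw [intervalIntegral.integral_eq_sub_of_hasDerivAt (fun t _ => hder t)
      (hkc.intervalIntegrable _ _)]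
    simp [hp]
  have hcs : (∫ t in (0 : ℝ)..1, k t) ^ 2 ≤ ∫ t in (0 : ℝ)..1, k t ^ 2 := by
    set m := ∫ t in (0 : ℝ)..1, k t with hm
    have h1 : 0 ≤ ∫ t in (0 : ℝ)..1, (k t - m) ^ 2 :=
      intervalIntegral.integral_nonneg (by norm_num) fun t _ => sq_nonneg _
    have h2 : ∫ t in (0 : ℝ)..1, (k t - m) ^ 2 =
        (∫ t in (0 : ℝ)..1, k t ^ 2) - 2 * m * m + m ^ 2 := by
      have e1 : ∀ t, (k t - m) ^ 2 = k t ^ 2 - 2 * m * k t + m ^ 2 := fun t => by ring
      simp_rw [e1]
      rw [intervalIntegral.integral_add, intervalIntegral.integral_sub,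
        intervalIntegral.integral_const_mul, ← hm]
      · simp
      · exact (hkc.pow 2).intervalIntegrable _ _
      · exact (continuous_const.mul hkc).intervalIntegrable _ _
      · exact ((hkc.pow 2).sub (continuous_const.mul hkc)).intervalIntegrable _ _
      · exact continuous_const.intervalIntegrable _ _
    nlinarith
  rw [← hint]
  refine hcs.trans ?_
  rw [← intervalIntegral.integral_const_mul]
  refine intervalIntegral.integral_mono_on (by norm_num) ((hkc.pow 2).intervalIntegrable _ _)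
    ((continuous_const.mul ((gsq_cont hφ).comp hpc)).intervalIntegrable _ _) fun t _ => ?_
  have h5 : k t ^ 2 ≤ (∑ i, (x - y) i ^ 2) * ∑ i, pd i φ (p t) ^ 2 :=
    Finset.sum_mul_sq_le_sq_mul_sq _ _ _
  have h6 : ∑ i, (x - y) i ^ 2 ≤ d * l ^ 2 := by
    calc ∑ i, (x - y) i ^ 2 ≤ ∑ _i : Fin d, l ^ 2 := Finset.sum_le_sum fun i _ => hl i
      _ = d * l ^ 2 := by simp
  exact h5.trans (mul_le_mul_of_nonneg_right h6 (gsq_nonneg _ _))

/-- scaling -/
theorem scale {Q : Set (Sp d)} (hQ : Convex ℝ Q) (hQm : MeasurableSet Q) {G : Sp d → ℝ≥0∞}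
    (hG : Measurable G) {s : ℝ} (hs : 1 / 2 ≤ s) (hs1 : s ≤ 1) {w : Sp d} (hw : w ∈ Q) :
    ∫⁻ y in Q, G ((1 - s) • w + s • y) ≤ 2 ^ d * ∫⁻ z in Q, G z := by
  have h1 : ∫⁻ y in Q, G ((1 - s) • w + s • y) ≤ ∫⁻ y, Q.indicator G ((1 - s) • w + s • y) := by
    rw [← lintegral_indicator hQm]
    refine lintegral_mono fun y => ?_
    by_cases hy : y ∈ Q
    · have h2 : (1 - s) • w + s • y ∈ Q := hQ hw hy (by linarith) (by linarith) (by ring)
      rw [indicator_of_mem hy, indicator_of_mem h2]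
    · rw [indicator_of_notMem hy]
      exact bot_le
  refine h1.trans ?_
  have hs0 : s ≠ 0 := by linarith
  have h3 : ∫⁻ y, Q.indicator G ((1 - s) • w + s • y) =
      ∫⁻ z, Q.indicator G ((1 - s) • w + z) ∂(Measure.map (fun y : Sp d => s • y) volume) := by
    rw [lintegral_map]
    · exact (hG.indicator hQm).comp (measurable_const_add _)
    · exact measurable_const_smul s
  rw [h3, Measure.map_addHaar_smul _ hs0, lintegral_smul_measure,
    lintegral_add_left_eq_self (fun z => Q.indicator G z) ((1 - s) • w), lintegral_indicator hQm,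
    smul_eq_mul]
  refine mul_le_mul_left ?_ _
  rw [Module.finrank_fin_fun]
  have h4 : |(s ^ d)⁻¹| ≤ 2 ^ d := by
    rw [abs_of_nonneg (by positivity), ← inv_pow]
    refine pow_le_pow_left₀ (by positivity) ?_ d
    rw [inv_le_comm₀ (by linarith) (by norm_num)]
    linarith
  calc ENNReal.ofReal |(s ^ d)⁻¹| ≤ ENNReal.ofReal (2 ^ d) := ENNReal.ofReal_le_ofReal h4
    _ = 2 ^ d := by
      rw [ENNReal.ofReal_pow (by norm_num)]
      norm_num

theorem triple {Q : Set (Sp d)} (hQ : Convex ℝ Q) (hQm : MeasurableSet Q) {G : Sp d → ℝ≥0∞}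
    (hG : Measurable G) :
    ∫⁻ x in Q, ∫⁻ y in Q, ∫⁻ t in Ioc (0 : ℝ) 1, G (y + t • (x - y)) ≤
      2 ^ d * volume Q * ∫⁻ z in Q, G z := by
  have hm : Measurable (fun p : (Sp d × Sp d) × ℝ => G (p.1.2 + p.2 • (p.1.1 - p.1.2))) := by
    refine hG.comp ?_
    fun_prop
  have e1 : ∀ x : Sp d, ∫⁻ y in Q, ∫⁻ t in Ioc (0 : ℝ) 1, G (y + t • (x - y)) =
      ∫⁻ t in Ioc (0 : ℝ) 1, ∫⁻ y in Q, G (y + t • (x - y)) := by
    intro x
    refine lintegral_lintegral_swap (Measurable.aemeasurable ?_)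
    refine hG.comp ?_
    fun_prop
  simp_rw [e1]
  rw [lintegral_lintegral_swap]
  · have h1 : ∀ t ∈ Ioc (0 : ℝ) 1, ∫⁻ x in Q, ∫⁻ y in Q, G (y + t • (x - y)) ≤
        2 ^ d * volume Q * ∫⁻ z in Q, G z := by
      intro t ht
      rcases le_total t (1 / 2) with h | h
      · calc ∫⁻ x in Q, ∫⁻ y in Q, G (y + t • (x - y)) ≤
            ∫⁻ _ in Q, 2 ^ d * ∫⁻ z in Q, G z := by
              refine setLIntegral_mono' hQm fun x hx => ?_
              have h2 := scale hQ hQm hG (s := 1 - t) (by linarith) (by linarith [ht.1]) hx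
              refine le_trans (le_of_eq ?_) h2
              refine lintegral_congr fun y => ?_
              congr 1
              module
          _ = 2 ^ d * volume Q * ∫⁻ z in Q, G z := by
              rw [lintegral_const, Measure.restrict_apply_univ]
              ring
      · rw [lintegral_lintegral_swap]
        · calc ∫⁻ y in Q, ∫⁻ x in Q, G (y + t • (x - y)) ≤
              ∫⁻ _ in Q, 2 ^ d * ∫⁻ z in Q, G z := by
                refine setLIntegral_mono' hQm fun y hy => ?_
                have h2 := scale hQ hQm hG (s := t) (by linarith) (by linarith [ht.2]) hy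
                refine le_trans (le_of_eq ?_) h2
                refine lintegral_congr fun x => ?_
                congr 1
                module
            _ = 2 ^ d * volume Q * ∫⁻ z in Q, G z := by
                rw [lintegral_const, Measure.restrict_apply_univ]
                ring
        · refine Measurable.aemeasurable ?_
          refine hG.comp ?_
          fun_prop
    calc ∫⁻ t in Ioc (0 : ℝ) 1, ∫⁻ x in Q, ∫⁻ y in Q, G (y + t • (x - y)) ≤
        ∫⁻ _ in Ioc (0 : ℝ) 1, 2 ^ d * volume Q * ∫⁻ z in Q, G z :=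
          setLIntegral_mono' measurableSet_Ioc h1
      _ = 2 ^ d * volume Q * ∫⁻ z in Q, G z := by
          rw [lintegral_const, Measure.restrict_apply_univ, Real.volume_Ioc]
          simp
  · refine Measurable.aemeasurable ?_
    have h2 : Measurable (fun p : (Sp d × ℝ) × Sp d => G (p.2 + p.1.2 • (p.1.1 - p.2))) := by
      refine hG.comp ?_
      fun_prop
    exact h2.lintegral_prod_right'

end Pool.Agent.E8helper23.MO
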