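import Pool.Agent.E8helper23.MO.Poin

set_option autoImplicit false

namespace Pool.Agent.E8helper23.MO

open MeasureTheory Filter Topology Set
open scoped ENNReal NNReal ContDiff

variable {d : ℕ}

theorem poinc_test {Q : Set (Sp d)} (hQ : Convex ℝ Q) (hQm : MeasurableSet Q)
    (hQf : volume Q ≠ ⊤) {l : ℝ} (hl : ∀ x ∈ Q, ∀ y ∈ Q, ∀ i, |x i - y i| ≤ l)
    {φ : Sp d → ℝ} (hφ : IsTest φ) :
    volume.real Q * (∫ x in Q, φ x ^ 2) - (∫ x in Q, φ x) ^ 2 ≤
      d * 2 ^ d * l ^ 2 * (volume.real Q * ∫ x in Q, gsq φ x) := by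
  have hfin : IsFiniteMeasure (volume.restrict Q) := ⟨by
    rw [Measure.restrict_apply_univ]
    exact hQf.lt_top⟩
  set m := ∫ x in Q, φ x with hm
  set s2 := ∫ x in Q, φ x ^ 2 with hs2
  have i2 : Integrable (fun x => φ x ^ 2) (volume.restrict Q) := intsq (hφ.memLp.restrict Q)
  have i1 : Integrable φ (volume.restrict Q) := (hφ.memLp.restrict Q).integrable (by norm_num)
  have ig : Integrable (gsq φ) (volume.restrict Q) :=
    integrable_finsetSum _ fun i _ => intsq ((hφ.pd_memLp i).restrict Q)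
  have hV : ∫ _ in Q, (1 : ℝ) = volume.real Q := by simp
  have ha : ∀ x, ∫ y in Q, (φ x - φ y) ^ 2 = volume.real Q * φ x ^ 2 - 2 * m * φ x + s2 := by
    intro x
    have e1 : ∀ y, (φ x - φ y) ^ 2 = φ x ^ 2 - 2 * φ x * φ y + φ y ^ 2 := fun y => by ring
    simp_rw [e1]
    rw [integral_add, integral_sub, integral_const_mul, ← hm, ← hs2]
    · simp
      ring
    · exact integrable_const _
    · exact i1.const_mul _
    · exact (integrable_const _).sub (i1.const_mul _)
    · exact i2
  have iy : ∀ x, Integrable (fun y => (φ x - φ y) ^ 2) (volume.restrict Q) := by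
    intro x
    have e1 : ∀ y, (φ x - φ y) ^ 2 = φ x ^ 2 - 2 * φ x * φ y + φ y ^ 2 := fun y => by ring
    simp_rw [e1]
    exact ((integrable_const _).sub (i1.const_mul _)).add i2
  have ia : Integrable (fun x => ∫ y in Q, (φ x - φ y) ^ 2) (volume.restrict Q) := by
    simp_rw [ha]
    exact ((i2.const_mul _).sub (i1.const_mul _)).add (integrable_const _)
  have hA : ∫ x in Q, ∫ y in Q, (φ x - φ y) ^ 2 = 2 * (volume.real Q * s2 - m ^ 2) := by
    simp_rw [ha]
    rw [integral_add, integral_sub, integral_const_mul, integral_const_mul, ← hm, ← hs2]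
    · simp
      ring
    · exact i2.const_mul _
    · exact i1.const_mul _
    · exact (i2.const_mul _).sub (i1.const_mul _)
    · exact integrable_const _
  have key : ENNReal.ofReal (∫ x in Q, ∫ y in Q, (φ x - φ y) ^ 2) ≤
      ENNReal.ofReal (d * 2 ^ d * l ^ 2 * (volume.real Q * ∫ x in Q, gsq φ x)) := by
    rw [ofReal_integral_eq_lintegral_ofReal ia
      (Eventually.of_forall fun x => integral_nonneg fun y => sq_nonneg _)]
    calc ∫⁻ x in Q, ENNReal.ofReal (∫ y in Q, (φ x - φ y) ^ 2)
        ≤ ∫⁻ x in Q, ∫⁻ y in Q, ENNReal.ofReal (d * l ^ 2) *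
            ∫⁻ t in Ioc (0 : ℝ) 1, ENNReal.ofReal (gsq φ (y + t • (x - y))) := by
          refine setLIntegral_mono' hQm fun x hx => ?_
          rw [ofReal_integral_eq_lintegral_ofReal (iy x) (Eventually.of_forall fun y => sq_nonneg _)]
          refine setLIntegral_mono' hQm fun y hy => ?_
          have h1 := path_ineq hφ x y l (hl x hx y hy)
          refine (ENNReal.ofReal_le_ofReal h1).trans ?_
          rw [ENNReal.ofReal_mul (by positivity)]
          refine mul_le_mul_right (le_of_eq ?_) _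
          rw [intervalIntegral.integral_of_le (by norm_num)]
          rw [ofReal_integral_eq_lintegral_ofReal]
          · refine Continuous.integrableOn_Ioc ?_
            exact (gsq_cont hφ).comp (by fun_prop)
          · exact Eventually.of_forall fun t => gsq_nonneg _ _
      _ = ENNReal.ofReal (d * l ^ 2) * ∫⁻ x in Q, ∫⁻ y in Q, 
            ∫⁻ t in Ioc (0 : ℝ) 1, ENNReal.ofReal (gsq φ (y + t • (x - y))) := by
          rw [← lintegral_const_mul' _ _ ENNReal.ofReal_ne_top]
          refine lintegral_congr fun x => ?_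
          rw [lintegral_const_mul' _ _ ENNReal.ofReal_ne_top]
      _ ≤ ENNReal.ofReal (d * l ^ 2) * (2 ^ d * volume Q * ∫⁻ z in Q, ENNReal.ofReal (gsq φ z)) := by
          refine mul_le_mul_right ?_ _
          exact triple hQ hQm (G := fun z => ENNReal.ofReal (gsq φ z))
            (gsq_cont hφ).measurable.ennreal_ofReal
      _ = ENNReal.ofReal (d * 2 ^ d * l ^ 2 * (volume.real Q * ∫ x in Q, gsq φ x)) := by
          rw [← ofReal_integral_eq_lintegral_ofReal ig (Eventually.of_forall fun x => gsq_nonneg _ _)]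
          have h2 : (0 : ℝ) ≤ ∫ x in Q, gsq φ x := integral_nonneg fun x => gsq_nonneg _ _
          have h3 : (volume Q) = ENNReal.ofReal (volume.real Q) := by
            rw [Measure.real, ENNReal.ofReal_toReal hQf]
          have h4 : (2 : ℝ≥0∞) ^ d = ENNReal.ofReal (2 ^ d) := by
            rw [ENNReal.ofReal_pow (by norm_num)]
            norm_num
          rw [h3, h4, ← ENNReal.ofReal_mul (by positivity), ← ENNReal.ofReal_mul (by positivity),
            ← ENNReal.ofReal_mul (by positivity)]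
          congr 1
          ring
  rw [hA] at key
  have h5 : 0 ≤ d * 2 ^ d * l ^ 2 * (volume.real Q * ∫ x in Q, gsq φ x) := by
    have h2 : (0 : ℝ) ≤ ∫ x in Q, gsq φ x := integral_nonneg fun x => gsq_nonneg _ _
    positivity
  rw [ENNReal.ofReal_le_ofReal_iff h5] at key
  have h6 : 0 ≤ ∫ x in Q, ∫ y in Q, (φ x - φ y) ^ 2 :=
    integral_nonneg fun x => integral_nonneg fun y => sq_nonneg _
  rw [hA] at h6
  linarith

theorem poinc {Q : Set (Sp d)} (hQ : Convex ℝ Q) (hQm : MeasurableSet Q)
    (hQf : volume Q ≠ ⊤) {l : ℝ} (hl : ∀ x ∈ Q, ∀ y ∈ Q, ∀ i, |x i - y i| ≤ l)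
    {u : Sp d → ℝ} {g : Fin d → Sp d → ℝ} (hu : IsH1 u g) :
    volume.real Q * (∫ x in Q, u x ^ 2) - (∫ x in Q, u x) ^ 2 ≤
      d * 2 ^ d * l ^ 2 * (volume.real Q * ∫ x in Q, ∑ i, g i x ^ 2) := by
  obtain ⟨φ, hφ, h1, h2, h3⟩ := hu.approx
  refine le_of_tendsto_of_tendsto' (((h1 Q).const_mul _).sub ((h2 Q hQf).pow 2))
    (((h3 Q).const_mul _).const_mul _) fun n => ?_
  exact poinc_test hQ hQm hQf hl (hφ n)

/-- Cauchy–Schwarz on a set off which `u` vanishes -/
theorem cs_set {Q E : Set (Sp d)} (hQm : MeasurableSet Q) (hE : MeasurableSet E)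
    (hQf : volume Q ≠ ⊤) {u : Sp d → ℝ} (hu : MemLp u 2 volume)
    (h0 : ∀ᵐ x, x ∉ E → u x = 0) :
    (∫ x in Q, u x) ^ 2 ≤ volume.real (Q ∩ E) * ∫ x in Q, u x ^ 2 := by
  have hfin : IsFiniteMeasure (volume.restrict Q) := ⟨by
    rw [Measure.restrict_apply_univ]
    exact hQf.lt_top⟩
  have i2 : Integrable (fun x => u x ^ 2) (volume.restrict Q) := intsq (hu.restrict Q)
  have i1 : Integrable u (volume.restrict Q) := (hu.restrict Q).integrable (by norm_num)
  set a := ∫ x in Q, u x with ha
  set V := volume.real (Q ∩ E) with hV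
  have hVE : ∫ x in Q, E.indicator (fun _ => (1 : ℝ)) x = V := by
    rw [integral_indicator_const _ hE]
    rw [Measure.real, Measure.restrict_apply hE, inter_comm, hV, Measure.real]
    simp
  have iE : Integrable (fun x => E.indicator (fun _ => (1 : ℝ)) x) (volume.restrict Q) :=
    (integrable_const _).indicator hE
  -- `∫ (V u - a 1_E)² ≥ 0`
  have h1 : 0 ≤ ∫ x in Q, (V * u x - a * E.indicator (fun _ => (1 : ℝ)) x) ^ 2 :=
    integral_nonneg fun x => sq_nonneg _
  have h2 : ∫ x in Q, (V * u x - a * E.indicator (fun _ => (1 : ℝ)) x) ^ 2 =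
      ∫ x in Q, (V ^ 2 * u x ^ 2 - 2 * V * a * u x + a ^ 2 * E.indicator (fun _ => (1 : ℝ)) x) := by
    refine integral_congr_ae ?_
    filter_upwards [ae_restrict_of_ae h0] with x hx
    by_cases hxE : x ∈ E
    · rw [indicator_of_mem hxE]
      ring
    · rw [indicator_of_notMem hxE, hx hxE]
      ring
  rw [h2, integral_add, integral_sub, integral_const_mul, integral_const_mul, integral_const_mul,
    hVE, ← ha] at h1
  · have hV0 : 0 ≤ V := measureReal_nonneg
    rcases hV0.eq_or_lt with h | h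
    · -- `V = 0`
      have h3 : a = 0 := by
        have h4 : ∀ᵐ x ∂(volume.restrict Q), u x = 0 := by
          have h5 : (volume.restrict Q) E = 0 := by
            rw [Measure.restrict_apply hE, inter_comm]
            rw [hV, Measure.real, eq_comm, ENNReal.toReal_eq_zero_iff] at h
            rcases h with h | h
            · exact h
            · exact absurd h ((measure_mono inter_subset_left).trans_lt hQf.lt_top).ne
          have h6 : ∀ᵐ x ∂(volume.restrict Q), x ∉ E := measure_eq_zero_iff_ae_notMem.1 h5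
          filter_upwards [h6, ae_restrict_of_ae h0] with x hx hx2
          exact hx2 hx
        rw [ha, integral_congr_ae h4]
        simp
      rw [h3]
      have h6 : 0 ≤ ∫ x in Q, u x ^ 2 := integral_nonneg fun x => sq_nonneg _
      have h7 := mul_nonneg hV0 h6
      linarith
    · have h4 : 0 ≤ V * (V * (∫ x in Q, u x ^ 2) - a ^ 2) := by nlinarith
      have h5 := nonneg_of_mul_nonneg_right h4 h
      linarith
  · exact i2.const_mul _
  · exact i1.const_mul _
  · exact (i2.const_mul _).sub (i1.const_mul _)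
  · exact iE.const_mul _

/-- The Poincaré inequality on a cell, for functions which vanish on a fixed proportion of it. -/
theorem poinc_cell {Q E : Set (Sp d)} (hQ : Convex ℝ Q) (hQm : MeasurableSet Q)
    (hQf : volume Q ≠ ⊤) (hE : MeasurableSet E) (hQ0 : 0 < volume.real Q) {η : ℝ}
    (hη : volume.real (Q ∩ E) ≤ (1 - η) * volume.real Q)
    {l : ℝ} (hl : ∀ x ∈ Q, ∀ y ∈ Q, ∀ i, |x i - y i| ≤ l)
    {u : Sp d → ℝ} {g : Fin d → Sp d → ℝ} (hu : IsH1 u g) (h0 : ∀ᵐ x, x ∉ E → u x = 0) :
    η * ∫ x in Q, u x ^ 2 ≤ d * 2 ^ d * l ^ 2 * ∫ x in Q, ∑ i, g i x ^ 2 := by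
  have h1 := poinc hQ hQm hQf hl hu
  have h2 := cs_set hQm hE hQf hu.1 h0
  have h3 : 0 ≤ ∫ x in Q, u x ^ 2 := integral_nonneg fun x => sq_nonneg _
  have h4 := h2.trans (mul_le_mul_of_nonneg_right hη h3)
  have h5 : volume.real Q * (η * ∫ x in Q, u x ^ 2) ≤
      volume.real Q * (d * 2 ^ d * l ^ 2 * ∫ x in Q, ∑ i, g i x ^ 2) := by nlinarith
  exact le_of_mul_le_mul_left h5 hQ0

end Pool.Agent.E8helper23.MO
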