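import Pool.Agent.E8helper23.MO.Cap

/-!
# Products of Sobolev functions and smooth functions
-/

set_option autoImplicit false

namespace Pool.Agent.E8helper23.MO

open MeasureTheory Filter Topology Set
open scoped ENNReal NNReal ContDiff

variable {d : ℕ}

theorem IsTest.smul {φ χ : Sp d → ℝ} (hφ : IsTest φ) (hχ : ContDiff ℝ ∞ χ) :
    IsTest (fun x => χ x * φ x) :=
  ⟨hχ.mul hφ.1, hφ.2.mul_left⟩

theorem pd_mul {φ χ : Sp d → ℝ} (hφ : ContDiff ℝ ∞ φ) (hχ : ContDiff ℝ ∞ χ) (i : Fin d)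
    (x : Sp d) : pd i (fun x => χ x * φ x) x = χ x * pd i φ x + φ x * pd i χ x := by
  unfold pd
  have h1 : DifferentiableAt ℝ χ x := (hχ.differentiable (by simp)) x
  have h2 : DifferentiableAt ℝ φ x := (hφ.differentiable (by simp)) x
  rw [fderiv_fun_mul h1 h2]
  simp

theorem pd_cont {χ : Sp d → ℝ} (hχ : ContDiff ℝ ∞ χ) (i : Fin d) : Continuous (pd i χ) := by
  have h1 : Continuous (fderiv ℝ χ) := hχ.continuous_fderiv (by simp)
  exact h1.clm_apply continuous_const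

/-- bounded smooth multipliers -/
structure Mult (χ : Sp d → ℝ) (M : ℝ) : Prop where
  smooth : ContDiff ℝ ∞ χ
  bd : ∀ x, |χ x| ≤ M
  bd' : ∀ i x, |pd i χ x| ≤ M

theorem memLp_bdd_mul {χ u : Sp d → ℝ} {M : ℝ} (hχ : Continuous χ) (hM : ∀ x, |χ x| ≤ M)
    (hu : MemLp u 2 volume) : MemLp (fun x => χ x * u x) 2 volume := by
  refine hu.of_le_mul (c := M) (hχ.aestronglyMeasurable.mul hu.1) ?_
  refine Eventually.of_forall fun x => ?_
  rw [norm_mul, Real.norm_eq_abs]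
  exact mul_le_mul_of_nonneg_right (hM x) (norm_nonneg _)

theorem mul_approx {u : Sp d → ℝ} {g : Fin d → Sp d → ℝ} (hu : IsH1 u g) {χ : Sp d → ℝ} {M : ℝ}
    (hχ : Mult χ M) : ∃ φ : ℕ → Sp d → ℝ, (∀ n, IsTest (φ n)) ∧
      Tendsto (fun n => ∫ x, (χ x * φ n x - χ x * u x) ^ 2) atTop (𝓝 0) ∧
      ∀ i, Tendsto (fun n => ∫ x, (pd i (fun x => χ x * φ n x) x -
        (χ x * g i x + u x * pd i χ x)) ^ 2) atTop (𝓝 0) := by
  obtain ⟨hu2, hg2, φ, hφ, h1, h2⟩ := hu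
  refine ⟨φ, hφ, ?_, fun i => ?_⟩
  · have h3 : Tendsto (fun n => M ^ 2 * ∫ x, (φ n x - u x) ^ 2) atTop (𝓝 0) := by
      simpa using h1.const_mul (M ^ 2)
    refine squeeze_zero (fun n => integral_nonneg fun x => sq_nonneg _) (fun n => ?_) h3
    rw [← integral_const_mul]
    refine integral_mono ?_ ((intsq_sub (hφ n).memLp hu2).const_mul _) fun x => ?_
    · exact intsq_sub (memLp_bdd_mul hχ.smooth.continuous hχ.bd (hφ n).memLp)
        (memLp_bdd_mul hχ.smooth.continuous hχ.bd hu2)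
    · have h4 : χ x ^ 2 ≤ M ^ 2 := by
        rw [← sq_abs]
        exact pow_le_pow_left₀ (abs_nonneg _) (hχ.bd x) 2
      simp only
      calc (χ x * φ n x - χ x * u x) ^ 2 = χ x ^ 2 * (φ n x - u x) ^ 2 := by ring
        _ ≤ M ^ 2 * (φ n x - u x) ^ 2 := mul_le_mul_of_nonneg_right h4 (sq_nonneg _)
  · have h3 : Tendsto (fun n => 2 * M ^ 2 * (∫ x, (pd i (φ n) x - g i x) ^ 2) +
        2 * M ^ 2 * ∫ x, (φ n x - u x) ^ 2) atTop (𝓝 0) := by
      simpa using ((h2 i).const_mul (2 * M ^ 2)).add (h1.const_mul (2 * M ^ 2))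
    refine squeeze_zero (fun n => integral_nonneg fun x => sq_nonneg _) (fun n => ?_) h3
    have ip : Integrable (fun x => (pd i (φ n) x - g i x) ^ 2) :=
      intsq_sub ((hφ n).pd_memLp i) (hg2 i)
    have iu : Integrable (fun x => (φ n x - u x) ^ 2) := intsq_sub (hφ n).memLp hu2
    rw [← integral_const_mul, ← integral_const_mul, ← integral_add (ip.const_mul _) (iu.const_mul _)]
    refine integral_mono ?_ ((ip.const_mul _).add (iu.const_mul _)) fun x => ?_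
    · refine intsq_sub ?_ ?_
      · exact ((hφ n).smul hχ.smooth).pd_memLp i
      · refine (memLp_bdd_mul hχ.smooth.continuous hχ.bd (hg2 i)).add ?_
        have := memLp_bdd_mul (pd_cont hχ.smooth i) (hχ.bd' i) hu2
        refine this.congr_norm (by
          exact hu2.1.mul (pd_cont hχ.smooth i).aestronglyMeasurable) ?_
        exact Eventually.of_forall fun x => by rw [mul_comm]
    · have h4 : χ x ^ 2 ≤ M ^ 2 := by
        rw [← sq_abs]
        exact pow_le_pow_left₀ (abs_nonneg _) (hχ.bd x) 2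
      have h5 : pd i χ x ^ 2 ≤ M ^ 2 := by
        rw [← sq_abs]
        exact pow_le_pow_left₀ (abs_nonneg _) (hχ.bd' i x) 2
      simp only
      rw [pd_mul (hφ n).1 hχ.smooth]
      have e1 : χ x * pd i (φ n) x + φ n x * pd i χ x - (χ x * g i x + u x * pd i χ x) =
          χ x * (pd i (φ n) x - g i x) + pd i χ x * (φ n x - u x) := by ring
      rw [e1]
      set a := pd i (φ n) x - g i x
      set b := φ n x - u x
      have e2 : (χ x * a + pd i χ x * b) ^ 2 ≤ 2 * (χ x ^ 2 * a ^ 2) + 2 * (pd i χ x ^ 2 * b ^ 2) := by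
        nlinarith [sq_nonneg (χ x * a - pd i χ x * b)]
      have e3 := mul_le_mul_of_nonneg_right h4 (sq_nonneg a)
      have e4 := mul_le_mul_of_nonneg_right h5 (sq_nonneg b)
      linarith

theorem memLp_prod {u : Sp d → ℝ} {g : Fin d → Sp d → ℝ} (hu : IsH1 u g) {χ : Sp d → ℝ} {M : ℝ}
    (hχ : Mult χ M) (i : Fin d) :
    MemLp (fun x => χ x * g i x + u x * pd i χ x) 2 volume := by
  refine (memLp_bdd_mul hχ.smooth.continuous hχ.bd (hu.2.1 i)).add ?_
  have := memLp_bdd_mul (pd_cont hχ.smooth i) (hχ.bd' i) hu.1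
  refine this.congr_norm (hu.1.1.mul (pd_cont hχ.smooth i).aestronglyMeasurable) ?_
  exact Eventually.of_forall fun x => by rw [mul_comm]

theorem IsH1.mul {u : Sp d → ℝ} {g : Fin d → Sp d → ℝ} (hu : IsH1 u g) {χ : Sp d → ℝ} {M : ℝ}
    (hχ : Mult χ M) : IsH1 (fun x => χ x * u x) (fun i x => χ x * g i x + u x * pd i χ x) := by
  obtain ⟨φ, hφ, h1, h2⟩ := mul_approx hu hχ
  exact ⟨memLp_bdd_mul hχ.smooth.continuous hχ.bd hu.1, memLp_prod hu hχ,
    fun n x => χ x * φ n x, fun n => (hφ n).smul hχ.smooth, h1, h2⟩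

theorem IsH10.mul {Ω V : Set (Sp d)} {u : Sp d → ℝ} {g : Fin d → Sp d → ℝ} (hu : IsH10 Ω u g)
    {χ : Sp d → ℝ} {M : ℝ} (hχ : Mult χ M) (h0 : ∀ x, χ x ≠ 0 → x ∈ V) :
    IsH10 (Ω ∩ V) (fun x => χ x * u x) (fun i x => χ x * g i x + u x * pd i χ x) := by
  refine ⟨hu.1.mul hχ, hu.2.1.mul_cont hχ.smooth.continuous, ?_⟩
  refine le_antisymm ((cap_mono ?_).trans hu.2.2.le) bot_le
  rintro x ⟨h1, h2⟩
  have h3 : χ x ≠ 0 := left_ne_zero_of_mul h2
  have h4 : u x ≠ 0 := right_ne_zero_of_mul h2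
  exact ⟨fun h5 => h1 ⟨h5, h0 x h3⟩, h4⟩

/-- the limit statement for masses and energies -/
theorem mul_approx' {u : Sp d → ℝ} {g : Fin d → Sp d → ℝ} (hu : IsH1 u g) {χ : Sp d → ℝ} {M : ℝ}
    (hχ : Mult χ M) : ∃ φ : ℕ → Sp d → ℝ, (∀ n, IsTest (φ n)) ∧ (∀ n x, φ n x ≠ 0 → χ x ≠ 0) ∧
      Tendsto (fun n => mass (φ n)) atTop (𝓝 (mass fun x => χ x * u x)) ∧
      Tendsto (fun n => energy fun i => pd i (φ n)) atTop
        (𝓝 (energy fun i x => χ x * g i x + u x * pd i χ x)) := by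
  obtain ⟨φ, hφ, h1, h2⟩ := mul_approx hu hχ
  refine ⟨fun n x => χ x * φ n x, fun n => (hφ n).smul hχ.smooth, fun n x h => left_ne_zero_of_mul h,
    ?_, ?_⟩
  · exact conv_sq (fun n => ((hφ n).smul hχ.smooth).memLp)
      (memLp_bdd_mul hχ.smooth.continuous hχ.bd hu.1) h1
  · rw [energy_eq (memLp_prod hu hχ)]
    simp_rw [fun n => energy_eq (fun i => ((hφ n).smul hχ.smooth).pd_memLp i)]
    exact tendsto_finsetSum _ fun i _ => conv_sq (fun n => ((hφ n).smul hχ.smooth).pd_memLp i)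
      (memLp_prod hu hχ i) (h2 i)

end Pool.Agent.E8helper23.MO
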